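import Pool.Agent.Lib.MP_688fd0_co.SQ5.H76.Pull

/-!
Type C2, far triples (helper58), row NUM, part A: the abelian quotient of `ker eps` and the coordinates.
-/

set_option autoImplicit false

namespace Pool.Agent.Lib.MP_688fd0_co.SQ5.H58

open Pool.Agent.Lib.MP_688fd0_co.OSF Pool.Agent.Lib.MP_688fd0_co.SQ5.H66 Pool.Agent.Lib.MP_688fd0_co.SQ5.H76

universe u v

section ab

variable {Q : Type u} [Group Q] (eps : Q →* ℤˣ)

/-- The abelian quotient of `ker eps`. -/
abbrev Tt : Type u := Additive (Abelianization eps.ker)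

open Classical in
/-- The class of an element of `ker eps` (zero outside). -/
noncomputable def ct (g : Q) : Tt eps :=
  if h : eps g = 1 then Additive.ofMul (Abelianization.of ⟨g, h⟩) else 0

variable {eps}

theorem ct_of {g : Q} (h : eps g = 1) : ct eps g = Additive.ofMul (Abelianization.of ⟨g, h⟩) := dif_pos h

theorem ct_mul {g g' : Q} (h : eps g = 1) (h' : eps g' = 1) : ct eps (g * g') = ct eps g + ct eps g' := by
  rw [ct_of h, ct_of h', ct_of (by rw [map_mul, h, h', mul_one] : eps (g * g') = 1)]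
  exact congrArg Additive.ofMul (map_mul Abelianization.of (⟨g, h⟩ : eps.ker) ⟨g', h'⟩)

theorem ct_one : ct eps (1 : Q) = 0 := by
  have h := ct_mul (eps := eps) (map_one eps) (map_one eps)
  rw [one_mul] at h
  exact left_eq_add.1 h

theorem ct_inv {g : Q} (h : eps g = 1) : ct eps g⁻¹ = -ct eps g := by
  have h1 := ct_mul h (by rw [map_inv, h, inv_one] : eps g⁻¹ = 1)
  rw [mul_inv_cancel, ct_one] at h1
  exact (neg_eq_of_add_eq_zero_right h1.symm).symm

theorem ct_surj (m : Tt eps) : ∃ g, eps g = 1 ∧ ct eps g = m := by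
  obtain ⟨g, hg⟩ := QuotientGroup.mk_surjective (Additive.toMul m)
  refine ⟨g.1, g.2, ?_⟩
  rw [ct_of (show eps g.1 = 1 from g.2)]
  exact congrArg Additive.ofMul hg

/-- The fibre: the commutator group of `ker eps`. -/
def K0 (eps : Q →* ℤˣ) : Subgroup Q := (commutator eps.ker).map eps.ker.subtype

theorem mem_K0 {g : Q} : g ∈ K0 eps ↔ eps g = 1 ∧ ct eps g = 0 := by
  constructor
  · rintro ⟨y, hy, rfl⟩
    refine ⟨y.2, ?_⟩
    rw [ct_of (show eps (eps.ker.subtype y) = 1 from y.2)]
    have : Abelianization.of y = 1 := (QuotientGroup.eq_one_iff y).2 hy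
    exact congrArg Additive.ofMul this
  · rintro ⟨h1, h2⟩
    rw [ct_of h1] at h2
    have h3 : Abelianization.of (⟨g, h1⟩ : eps.ker) = 1 := Additive.ofMul.injective h2
    exact ⟨⟨g, h1⟩, (QuotientGroup.eq_one_iff _).1 h3, rfl⟩

end ab

section letters

variable {Q : Type u} [Group Q] {eps : Q →* ℤˣ} {x : Fin 3 → Q}

/-- The hypotheses on the three letters. -/
structure Inv3 (eps : Q →* ℤˣ) (x : Fin 3 → Q) : Prop where
  neg : ∀ i, eps (x i) = -1
  inv : ∀ i, x i * x i = 1
  gen : Subgroup.closure (Set.range x) = ⊤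

variable (H : Inv3 eps x)

include H

theorem Inv3.even (i j : Fin 3) : eps (x i * x j) = 1 := by rw [map_mul, H.neg, H.neg]; decide

theorem Inv3.h_sub (i j : Fin 3) : ct eps (x i * x 0) - ct eps (x j * x 0) = ct eps (x i * x j) := by
  have h1 : (x j * x 0)⁻¹ = x 0 * x j := by
    rw [mul_inv_rev, inv_eq_of_mul_eq_one_right (H.inv 0), inv_eq_of_mul_eq_one_right (H.inv j)]
  have h2 : x i * x j = (x i * x 0) * (x j * x 0)⁻¹ := by
    rw [h1, mul_assoc, ← mul_assoc (x 0), H.inv, one_mul]
  rw [h2, ct_mul (H.even i 0) (by rw [map_inv, H.even, inv_one]), ct_inv (H.even j 0), sub_eq_add_neg]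

/-- The coordinate for the middle letter `t`. -/
noncomputable def kk (eps : Q →* ℤˣ) (x : Fin 3 → Q) (t : Fin 3) (g : Q) : Tt eps :=
  open Classical in if eps g = 1 then ct eps g else ct eps (g * x t)

omit H in
theorem kk_pos {t : Fin 3} {g : Q} (h : eps g = 1) : kk eps x t g = ct eps g := if_pos h

omit H in
theorem kk_neg {t : Fin 3} {g : Q} (h : eps g = -1) : kk eps x t g = ct eps (g * x t) :=
  if_neg (by rw [h]; decide)

theorem Inv3.kk_step (t i : Fin 3) (g : Q) : kk eps x t (g * x i) =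
    if eps g = 1 then kk eps x t g + ct eps (x i * x t) else kk eps x t g - ct eps (x i * x t) := by
  rcases Int.units_eq_one_or (eps g) with h | h
  · rw [if_pos h, kk_pos h, kk_neg (by rw [map_mul, h, H.neg, one_mul]), mul_assoc, ct_mul h (H.even i t)]
  · rw [if_neg (by rw [h]; decide), kk_neg h, kk_pos (by rw [map_mul, h, H.neg]; decide)]
    have h1 : g * x i = (g * x t) * (x i * x t)⁻¹ := by
      rw [mul_inv_rev, inv_eq_of_mul_eq_one_right (H.inv t), inv_eq_of_mul_eq_one_right (H.inv i), mul_assoc,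
        ← mul_assoc (x t), H.inv, one_mul]
    rw [h1, ct_mul (by rw [map_mul, h, H.neg]; decide) (by rw [map_inv, H.even, inv_one]), ct_inv (H.even i t),
      sub_eq_add_neg]

omit H in
theorem three {t a b : Fin 3} (hta : t ≠ a) (htb : t ≠ b) (hab : a ≠ b) (i : Fin 3) : i = t ∨ i = a ∨ i = b := by
  revert hta htb hab
  fin_cases t <;> fin_cases a <;> fin_cases b <;> fin_cases i <;> simp

theorem Inv3.kk_mem {t a b : Fin 3} (hta : t ≠ a) (htb : t ≠ b) (hab : a ≠ b) (g : Q) :
    kk eps x t g ∈ AddSubgroup.closure {ct eps (x a * x t), ct eps (x b * x t)} := by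
  set A := AddSubgroup.closure {ct eps (x a * x t), ct eps (x b * x t)} with hA
  let S : Subgroup Q :=
    { carrier := {g | ∀ y, kk eps x t (y * g) - kk eps x t y ∈ A}
      one_mem' := fun y => by rw [mul_one, sub_self]; exact A.zero_mem
      mul_mem' := fun {g g'} h h' y => by
        have := A.add_mem (h' (y * g)) (h y)
        rwa [sub_add_sub_cancel, mul_assoc] at this
      inv_mem' := fun {g} h y => by
        have := A.neg_mem (h (y * g⁻¹))
        rwa [inv_mul_cancel_right, neg_sub] at this }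
  have hS : S = ⊤ := by
    rw [← top_le_iff, ← H.gen, Subgroup.closure_le]
    rintro _ ⟨i, rfl⟩ y
    have hi : ct eps (x i * x t) ∈ A := by
      rcases three hta htb hab i with rfl | rfl | rfl
      · rw [H.inv, ct_one]; exact A.zero_mem
      · exact AddSubgroup.subset_closure (by simp)
      · exact AddSubgroup.subset_closure (by simp)
    rw [H.kk_step]
    split_ifs with h
    · rw [add_sub_cancel_left]; exact hi
    · rw [sub_sub_cancel_left]; exact A.neg_mem hi
  have h1 : g ∈ S := by rw [hS]; trivial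
  have h2 := h1 1
  rw [one_mul, kk_pos (map_one eps), ct_one, sub_zero] at h2
  exact h2

theorem Inv3.gn {t a b : Fin 3} (hta : t ≠ a) (htb : t ≠ b) (hab : a ≠ b) :
    Gn (ct eps (x a * x t)) (ct eps (x b * x t)) := by
  intro m
  obtain ⟨g, hg, rfl⟩ := ct_surj m
  have h1 := H.kk_mem hta htb hab g
  rw [kk_pos hg, AddSubgroup.mem_closure_pair] at h1
  obtain ⟨i, j, h⟩ := h1
  exact ⟨i, j, h.symm⟩

/-- The sign and the coordinate. -/
noncomputable def Inv3.co {B : Lb.{u, v} Q} {l : L3 → B.L} {t a b : Fin 3} (hta : t ≠ a) (htb : t ≠ b) (hab : a ≠ b)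
    (ht : B.q (l .t) = x t) (ha : B.q (l .a) = x a) (hb : B.q (l .b) = x b) :
    Co B l (ct eps (x a * x t)) (ct eps (x b * x t)) where
  s g := decide (eps g = 1)
  k g := kk eps x t g
  hs g i := by
    have hi : eps (B.q (l i)) = -1 := by
      cases i
      · rw [ha]; exact H.neg _
      · rw [hb]; exact H.neg _
      · rw [ht]; exact H.neg _
    rcases Int.units_eq_one_or (eps g) with h | h
    · rw [map_mul, h, hi]; decide
    · rw [map_mul, h, hi]; decide
  ht g := by
    rw [ht, H.kk_step, H.inv, ct_one, add_zero, sub_zero, ite_self]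
  ha g := by
    rw [ha, H.kk_step]
    simp only [decide_eq_true_eq]
  hb g := by
    rw [hb, H.kk_step]
    simp only [decide_eq_true_eq]
  gen g := by
    have h1 := H.kk_mem hta htb hab g
    rw [AddSubgroup.mem_closure_pair] at h1
    obtain ⟨i, j, h⟩ := h1
    exact ⟨i, j, h.symm⟩

/-- The fibres of the coordinate. -/
theorem Inv3.fibre (t : Fin 3) (g g' : Q) :
    (eps g = eps g' ∧ kk eps x t g = kk eps x t g') ↔ g⁻¹ * g' ∈ K0 eps := by
  have key : ∀ {y y' : Q}, eps y = 1 → eps y' = 1 → (ct eps y = ct eps y' ↔ ct eps (y⁻¹ * y') = 0) := by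
    intro y y' h h'
    rw [ct_mul (by rw [map_inv, h, inv_one]) h', ct_inv h, neg_add_eq_zero]
  have hconj : ∀ y : Q, y ∈ K0 eps ↔ (x t)⁻¹ * y * x t ∈ K0 eps := by
    intro y
    have hn : (K0 eps).Normal := by
      unfold K0
      infer_instance
    constructor
    · intro h
      have := hn.conj_mem y h (x t)⁻¹
      rwa [inv_inv] at this
    · intro h
      have := hn.conj_mem _ h (x t)
      rwa [← mul_assoc, ← mul_assoc, mul_inv_cancel, one_mul, mul_inv_cancel_right] at this
  rcases Int.units_eq_one_or (eps g) with h | h <;> rcases Int.units_eq_one_or (eps g') with h' | h'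
  · rw [kk_pos h, kk_pos h', mem_K0, key h h', map_mul, map_inv, h, h']
    simp
  · rw [mem_K0, map_mul, map_inv, h, h']
    constructor
    · rintro ⟨h1, -⟩; exact absurd h1 (by decide)
    · rintro ⟨h1, -⟩; exact absurd h1 (by decide)
  · rw [mem_K0, map_mul, map_inv, h, h']
    constructor
    · rintro ⟨h1, -⟩; exact absurd h1 (by decide)
    · rintro ⟨h1, -⟩; exact absurd h1 (by decide)
  · have e1 : eps (g * x t) = 1 := by rw [map_mul, h, H.neg]; decide
    have e2 : eps (g' * x t) = 1 := by rw [map_mul, h', H.neg]; decide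
    rw [kk_neg h, kk_neg h', key e1 e2, hconj]
    have e3 : (g * x t)⁻¹ * (g' * x t) = (x t)⁻¹ * (g⁻¹ * g') * x t := by group
    rw [e3, mem_K0]
    have e4 : eps ((x t)⁻¹ * (g⁻¹ * g') * x t) = 1 := by
      rw [← e3, map_mul, map_inv, e1, e2]; decide
    rw [e4, h, h']
    simp

end letters

end Pool.Agent.Lib.MP_688fd0_co.SQ5.H58
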