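import Pool.Agent.Lib.MP_688fd0_co.SQ5.H23.C2
import Pool.Agent.Lib.MP_688fd0_co.SQ5.H58.NumA

/-!
Type C2, far triples (helper58), row NUM, part B: the order of the fibre and of the abelian quotient.
-/

set_option autoImplicit false

namespace Pool.Agent.Lib.MP_688fd0_co.SQ5.H58

open Pool.Agent.Lib.MP_688fd0_co.OSF Pool.Agent.Lib.MP_688fd0_co.SQ5.H66 Pool.Agent.Lib.MP_688fd0_co.SQ5.H76
open Pool.Agent.Lib.MP_688fd0_co.SQ3

section grp

variable {G : Type} [Group G] [Finite G] {N C : Subgroup G} {eps : G →* ℤˣ} {k P : ℕ}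

/-- The fibre meets `N` in a subgroup of `C`. -/
theorem K0_inf_le (h : GN N C eps k P) : K0 eps ⊓ N ≤ C := by
  have hCn := h.Cn
  have hNn := h.Nn
  rintro _ ⟨⟨y, hy, rfl⟩, hN⟩
  have hyN : (y : G) ∈ N := hN
  let Γ := eps.ker
  let CΓ : Subgroup Γ := C.subgroupOf Γ
  let π : Γ →* Γ ⧸ CΓ := QuotientGroup.mk' CΓ
  -- the image of N is central
  have hcen : (N.subgroupOf Γ).map π ≤ Subgroup.center (Γ ⧸ CΓ) := by
    rintro _ ⟨n, hn, rfl⟩
    rw [Subgroup.mem_center_iff]
    intro g'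
    obtain ⟨g, rfl⟩ := QuotientGroup.mk'_surjective CΓ g'
    have h1 : π (g * n * g⁻¹ * n⁻¹) = 1 := by
      refine (QuotientGroup.eq_one_iff _).2 ?_
      have h2 := h.act n.1 hn g.1
      rw [show eps g.1 = 1 from g.2] at h2
      have h3 : ((1 : ℤˣ) : ℤ) = 1 := rfl
      rw [h3, zpow_one] at h2
      exact h2
    rw [map_mul, map_mul, map_mul, map_inv, map_inv, mul_inv_eq_one, mul_inv_eq_iff_eq_mul] at h1
    exact h1
  have hidx : (Subgroup.center (Γ ⧸ CΓ)).index ∣ k := by
    refine (Subgroup.index_dvd_of_le hcen).trans ?_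
    refine ((N.subgroupOf Γ).index_map_dvd (QuotientGroup.mk'_surjective CΓ)).trans ?_
    rw [← h.idx]
    exact Subgroup.relIndex_dvd_index_of_normal N Γ
  have h1 : π y ^ k = 1 := by
    have h2 : MonoidHom.transferCenterPow (Γ ⧸ CΓ) (π y) = 1 := by
      let _ : CommGroup (Subgroup.center (Γ ⧸ CΓ)) :=
        { (inferInstance : Group (Subgroup.center (Γ ⧸ CΓ))) with
          mul_comm := fun u v => Subtype.ext ((Subgroup.mem_center_iff.1 v.2 u.1)) }
      have h3 := Abelianization.commutator_subset_ker (A := Subgroup.center (Γ ⧸ CΓ))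
        ((MonoidHom.transferCenterPow (Γ ⧸ CΓ)).comp π) hy
      exact h3
    have h4 : (π y) ^ (Subgroup.center (Γ ⧸ CΓ)).index = 1 := by
      rw [← MonoidHom.transferCenterPow_apply, h2]
      rfl
    obtain ⟨c, hc⟩ := hidx
    rw [hc, pow_mul, h4, one_pow]
  have h2 : π y ^ Nat.card N = 1 := by
    have h3 : y ^ Nat.card N = 1 := by
      have h4 : ((⟨(y : G), hyN⟩ : N)) ^ Nat.card N = 1 := pow_card_eq_one'
      have h5 : (y : G) ^ Nat.card N = 1 := congrArg Subtype.val h4
      apply Subtype.ext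
      rw [Subgroup.coe_pow, h5]
      rfl
    rw [← map_pow, h3, map_one]
  have h3 : π y = 1 := by
    have h4 : orderOf (π y) ∣ Nat.gcd (Nat.card N) k :=
      Nat.dvd_gcd (orderOf_dvd_of_pow_eq_one h2) (orderOf_dvd_of_pow_eq_one h1)
    rw [h.cop] at h4
    exact orderOf_eq_one_iff.1 (Nat.dvd_one.1 h4)
  exact (QuotientGroup.eq_one_iff y).1 h3

/-- The order of the fibre divides `|C| k`. -/
theorem card_K0_dvd (h : GN N C eps k P) : Nat.card (K0 eps) ∣ Nat.card C * k := by
  have hNn := h.Nn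
  have h1 := (N.subgroupOf (K0 eps)).card_mul_index
  rw [← h1]
  refine mul_dvd_mul ?_ ?_
  · have h2 : Nat.card (N.subgroupOf (K0 eps)) = Nat.card (K0 eps ⊓ N : Subgroup G) := by
      rw [← Subgroup.inf_subgroupOf_left]
      exact Nat.card_congr (Subgroup.subgroupOfEquivOfLe inf_le_left).toEquiv
    rw [h2]
    exact Subgroup.card_dvd_of_le (K0_inf_le h)
  · rw [← h.idx]
    exact Subgroup.relIndex_dvd_index_of_normal N (K0 eps)

theorem not_dvd_K0 (h : GN N C eps k P) : ¬ P ∣ Nat.card (K0 eps) := by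
  intro hd
  rcases h.prime.dvd_mul.1 (hd.trans (card_K0_dvd h)) with h1 | h1
  · exact h.ndvd h1
  · have h2 := Nat.dvd_gcd h.dvd h1
    rw [h.cop] at h2
    exact h.prime.one_lt.ne' (Nat.dvd_one.1 h2)

theorem card_T (eps : G →* ℤˣ) : Nat.card (Tt eps) * Nat.card (K0 eps) = Nat.card eps.ker := by
  have h1 : Nat.card (K0 eps) = Nat.card (commutator eps.ker) := by
    unfold K0
    exact (Nat.card_congr (Subgroup.equivMapOfInjective _ _ eps.ker.subtype_injective).toEquiv).symm
  rw [h1]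
  exact (Subgroup.card_eq_card_quotient_mul_card_subgroup (commutator eps.ker)).symm

/-- `P` divides the order of the abelian quotient. -/
theorem dvd_T (h : GN N C eps k P) : P ∣ Nat.card (Tt eps) := by
  have h1 : Nat.card N ∣ Nat.card eps.ker := Subgroup.card_dvd_of_le fun n hn => h.eN n hn
  have h2 := h.dvd.trans h1
  rw [← card_T] at h2
  rcases h.prime.dvd_mul.1 h2 with h3 | h3
  · exact h3
  · exact absurd h3 (not_dvd_K0 h)

end grp

section tri

variable {G : Type} [Group G] [Finite G] {N C : Subgroup G} {eps : G →* ℤˣ} {k P : ℕ} {a t b : G} {c₁ : ℕ}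

/-- The letters of a triple. -/
theorem inv3 (h : SQD.Tri N C eps k P a t b c₁) : Inv3 eps ![a, t, b] where
  neg i := by fin_cases i <;> [exact h.ea; exact h.et; exact h.eb]
  inv i := by fin_cases i <;> [exact h.aa; exact h.tt; exact h.bb]
  gen := by
    rw [← h.gen]
    congr 1
    ext y
    constructor
    · rintro ⟨i, rfl⟩
      fin_cases i <;> simp
    · rintro (rfl | rfl | rfl)
      · exact ⟨0, rfl⟩
      · exact ⟨1, rfl⟩
      · exact ⟨2, rfl⟩

/-- A relation of the classes is a relation of the heights. -/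
theorem rel_of (h : SQD.Tri N C eps k P a t b c₁) {τ : ℕ} {n : Fin 3 → ℤ}
    (hn : Rel (fun i => ct eps (![a, t, b] i * ![a, t, b] 0)) n) (hn0 : n ≠ 0) (hτ : ∀ i, |n i| ≤ τ) :
    SQD.Rel P a t b τ := by
  have H := inv3 h
  obtain ⟨h1, h2⟩ := hn
  refine ⟨n 0, n 2, ?_, hτ 0, hτ 2, ?_⟩
  · by_contra hcon
    push Not at hcon
    apply hn0
    funext i
    fin_cases i
    · exact hcon.1
    · show n 1 = 0
      rw [hcon.1, hcon.2] at h1
      omega
    · exact hcon.2
  · have e1 := H.h_sub 0 1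
    have e2 := H.h_sub 2 1
    have h3 : n 0 • ct eps (a * t) + n 2 • ct eps (b * t) = 0 := by
      have e3 : n 0 • ct eps (a * t) + n 2 • ct eps (b * t) =
          n 0 • (ct eps (![a, t, b] 0 * ![a, t, b] 0) - ct eps (![a, t, b] 1 * ![a, t, b] 0)) +
          n 2 • (ct eps (![a, t, b] 2 * ![a, t, b] 0) - ct eps (![a, t, b] 1 * ![a, t, b] 0)) := by
        rw [e1, e2]
        rfl
      have e4 : n 1 = -(n 0 + n 2) := by omega
      rw [e3, ← h2, e4]
      module
    have hz : ∀ (g : G), eps g = 1 → ∀ m : ℤ, eps (g ^ m) = 1 ∧ ct eps (g ^ m) = m • ct eps g := by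
      intro g hg m
      have hp : ∀ m : ℤ, eps (g ^ m) = 1 := fun m => by rw [map_zpow, hg, one_zpow]
      refine ⟨hp m, ?_⟩
      induction m using Int.induction_on with
      | zero => rw [zpow_zero, ct_one, zero_smul]
      | succ i ih => rw [zpow_add_one, ct_mul (hp _) hg, ih, add_smul, one_smul]
      | pred i ih => rw [zpow_sub_one, ct_mul (hp _) (by rw [map_inv, hg, inv_one]), ih, ct_inv hg, sub_smul, one_smul,
          sub_eq_add_neg]
    have ha := H.even 0 1
    have hb := H.even 2 1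
    have h4 := hz (a * t) ha (n 0)
    have h5 := hz (b * t) hb (n 2)
    have h6 : (a * t) ^ n 0 * (b * t) ^ n 2 ∈ K0 eps := by
      rw [mem_K0, map_mul, h4.1, h5.1, mul_one, ct_mul h4.1 h5.1, h4.2, h5.2, h3]
      exact ⟨rfl, rfl⟩
    intro hP
    have h7 : orderOf ((a * t) ^ n 0 * (b * t) ^ n 2) ∣ Nat.card (K0 eps) := by
      have := orderOf_dvd_natCard (⟨_, h6⟩ : K0 eps)
      rwa [Subgroup.orderOf_mk] at this
    exact not_dvd_K0 h.gn (hP.trans h7)

end tri

end Pool.Agent.Lib.MP_688fd0_co.SQ5.H58
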