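import Pool.Agent.Lib.MP_688fd0_co.SQ5.H58.NumB

/-!
Type C2, threads over far bases (helper58), row NUM, part A: the abelian quotient of `G0 ∩ ker eps` and the coordinates
for a section of the cosets.
-/

set_option autoImplicit false

namespace Pool.Agent.Lib.MP_688fd0_co.SQ5.H58

open Pool.Agent.Lib.MP_688fd0_co.OSF Pool.Agent.Lib.MP_688fd0_co.SQ5.H66 Pool.Agent.Lib.MP_688fd0_co.SQ5.H76

universe u v

section ab

variable {Q : Type u} [Group Q] (eps : Q →* ℤˣ) (G0 : Subgroup Q)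

/-- The abelian quotient of `G0 ∩ ker eps`. -/
abbrev Th : Type u := Additive (Abelianization (G0.subgroupOf eps.ker))

open Classical in
/-- The class of an element of `G0 ∩ ker eps` (zero outside). -/
noncomputable def cth (g : Q) : Th eps G0 :=
  if h : eps g = 1 ∧ g ∈ G0 then Additive.ofMul (Abelianization.of ⟨⟨g, h.1⟩, h.2⟩) else 0

/-- The fibre: the commutator group of `G0 ∩ ker eps`. -/
def KH : Subgroup Q := ⁅G0 ⊓ eps.ker, G0 ⊓ eps.ker⁆

variable {eps G0}

theorem cth_of {g : Q} (h : eps g = 1) (h0 : g ∈ G0) :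
    cth eps G0 g = Additive.ofMul (Abelianization.of ⟨⟨g, h⟩, h0⟩) := dif_pos ⟨h, h0⟩

theorem cth_coe (y : G0.subgroupOf eps.ker) :
    cth eps G0 ((y : eps.ker) : Q) = Additive.ofMul (Abelianization.of y) := cth_of y.1.2 y.2

theorem cth_mul {g g' : Q} (h : eps g = 1) (h0 : g ∈ G0) (h' : eps g' = 1) (h0' : g' ∈ G0) :
    cth eps G0 (g * g') = cth eps G0 g + cth eps G0 g' := by
  rw [cth_of h h0, cth_of h' h0', cth_of (by rw [map_mul, h, h', mul_one] : eps (g * g') = 1) (G0.mul_mem h0 h0')]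
  exact congrArg Additive.ofMul (map_mul Abelianization.of (⟨⟨g, h⟩, h0⟩ : G0.subgroupOf eps.ker) ⟨⟨g', h'⟩, h0'⟩)

theorem cth_one : cth eps G0 (1 : Q) = 0 := by
  have h := cth_mul (map_one eps) G0.one_mem (map_one eps) G0.one_mem
  rw [one_mul] at h
  exact left_eq_add.1 h

theorem cth_inv {g : Q} (h : eps g = 1) (h0 : g ∈ G0) : cth eps G0 g⁻¹ = -cth eps G0 g := by
  have h1 := cth_mul h h0 (by rw [map_inv, h, inv_one] : eps g⁻¹ = 1) (G0.inv_mem h0)
  rw [mul_inv_cancel, cth_one] at h1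
  exact (neg_eq_of_add_eq_zero_right h1.symm).symm

theorem cth_zpow {g : Q} (h : eps g = 1) (h0 : g ∈ G0) (m : ℤ) : cth eps G0 (g ^ m) = m • cth eps G0 g := by
  have hp : ∀ m : ℤ, eps (g ^ m) = 1 := fun m => by rw [map_zpow, h, one_zpow]
  induction m using Int.induction_on with
  | zero => rw [zpow_zero, cth_one, zero_smul]
  | succ i ih => rw [zpow_add_one, cth_mul (hp _) (G0.zpow_mem h0 _) h h0, ih, add_smul, one_smul]
  | pred i ih => rw [zpow_sub_one, cth_mul (hp _) (G0.zpow_mem h0 _) (by rw [map_inv, h, inv_one]) (G0.inv_mem h0), ih,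
      cth_inv h h0, sub_smul, one_smul, sub_eq_add_neg]

theorem cth_surj (m : Th eps G0) : ∃ g, eps g = 1 ∧ g ∈ G0 ∧ cth eps G0 g = m := by
  obtain ⟨g, hg⟩ := QuotientGroup.mk_surjective (Additive.toMul m)
  refine ⟨g.1.1, g.1.2, g.2, ?_⟩
  rw [cth_coe]
  exact congrArg Additive.ofMul hg

theorem map_inf : ((G0.subgroupOf eps.ker).map eps.ker.subtype) = G0 ⊓ eps.ker := Subgroup.subgroupOf_map_subtype _ _

theorem KH_eq : KH eps G0 =
    ((commutator (G0.subgroupOf eps.ker)).map (G0.subgroupOf eps.ker).subtype).map eps.ker.subtype := by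
  rw [Subgroup.map_subtype_commutator, Subgroup.map_commutator, map_inf]
  rfl

theorem mem_KH {g : Q} : g ∈ KH eps G0 ↔ eps g = 1 ∧ g ∈ G0 ∧ cth eps G0 g = 0 := by
  rw [KH_eq]
  constructor
  · rintro ⟨_, ⟨y, hy, rfl⟩, rfl⟩
    refine ⟨y.1.2, y.2, ?_⟩
    have h1 : Abelianization.of y = 1 := (QuotientGroup.eq_one_iff y).2 hy
    have h2 := cth_coe y
    rw [h1] at h2
    exact h2
  · rintro ⟨h1, h0, h2⟩
    rw [cth_of h1 h0] at h2
    have h3 : Abelianization.of (⟨⟨g, h1⟩, h0⟩ : G0.subgroupOf eps.ker) = 1 := Additive.ofMul.injective h2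
    exact ⟨⟨g, h1⟩, ⟨⟨⟨g, h1⟩, h0⟩, (QuotientGroup.eq_one_iff _).1 h3, rfl⟩, rfl⟩

theorem KH_le_K0 : KH eps G0 ≤ K0 eps := by
  have h : K0 eps = ⁅eps.ker, eps.ker⁆ := Subgroup.map_subtype_commutator eps.ker
  rw [h]
  exact Subgroup.commutator_mono inf_le_right inf_le_right

theorem KH_le : KH eps G0 ≤ G0 := fun _ hg => (mem_KH.1 hg).2.1

/-- `G0` normalises the fibre. -/
theorem KH_conj {y g : Q} (hy : y ∈ KH eps G0) (hg : g ∈ G0) : g * y * g⁻¹ ∈ KH eps G0 := by
  have h1 : (G0 ⊓ eps.ker).map (MulAut.conj g).toMonoidHom ≤ G0 ⊓ eps.ker := by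
    rintro _ ⟨x, ⟨hx1, hx2⟩, rfl⟩
    refine ⟨G0.mul_mem (G0.mul_mem hg hx1) (G0.inv_mem hg), ?_⟩
    show eps (g * x * g⁻¹) = 1
    rw [map_mul, map_mul, map_inv, show eps x = 1 from hx2, mul_one, mul_inv_cancel]
  have h2 : (KH eps G0).map (MulAut.conj g).toMonoidHom ≤ KH eps G0 := by
    unfold KH
    rw [Subgroup.map_commutator]
    exact Subgroup.commutator_mono h1 h1
  exact h2 ⟨y, hy, rfl⟩

theorem KH_conj_iff {y g : Q} (hg : g ∈ G0) : g⁻¹ * y * g ∈ KH eps G0 ↔ y ∈ KH eps G0 := by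
  constructor
  · intro h
    have := KH_conj h hg
    rwa [← mul_assoc, ← mul_assoc, mul_inv_cancel, one_mul, mul_inv_cancel_right] at this
  · intro h
    have := KH_conj h (G0.inv_mem hg)
    rwa [inv_inv] at this

theorem card_Th [Finite Q] :
    Nat.card (Th eps G0) * Nat.card (KH eps G0) = Nat.card (G0 ⊓ eps.ker : Subgroup Q) := by
  have h1 : Nat.card (KH eps G0) = Nat.card (commutator (G0.subgroupOf eps.ker)) := by
    rw [KH_eq]
    exact (Nat.card_congr ((Subgroup.equivMapOfInjective _ _ (Subgroup.subtype_injective _)).trans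
      (Subgroup.equivMapOfInjective _ _ (Subgroup.subtype_injective _))).toEquiv).symm
  have h2 : Nat.card (G0 ⊓ eps.ker : Subgroup Q) = Nat.card (G0.subgroupOf eps.ker) := by
    rw [← map_inf]
    exact (Nat.card_congr (Subgroup.equivMapOfInjective _ _ (Subgroup.subtype_injective _)).toEquiv).symm
  rw [h1, h2]
  exact (Subgroup.card_eq_card_quotient_mul_card_subgroup (commutator (G0.subgroupOf eps.ker))).symm

end ab

section letters

variable {Q : Type u} [Group Q] {eps : Q →* ℤˣ} {G0 : Subgroup Q} {x : Fin 3 → Q}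

/-- The hypotheses on the three letters of the base. -/
structure IvT (eps : Q →* ℤˣ) (G0 : Subgroup Q) (x : Fin 3 → Q) : Prop where
  neg : ∀ i, eps (x i) = -1
  inv : ∀ i, x i * x i = 1
  mem : ∀ i, x i ∈ G0
  gen : G0 ≤ Subgroup.closure (Set.range x)

variable (H : IvT eps G0 x)

include H

theorem IvT.even (i j : Fin 3) : eps (x i * x j) = 1 := by rw [map_mul, H.neg, H.neg]; decide

theorem IvT.mem2 (i j : Fin 3) : x i * x j ∈ G0 := G0.mul_mem (H.mem i) (H.mem j)

theorem IvT.iinv (i : Fin 3) : (x i)⁻¹ = x i := inv_eq_of_mul_eq_one_right (H.inv i)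

theorem IvT.h_sub (i j : Fin 3) :
    cth eps G0 (x i * x 0) - cth eps G0 (x j * x 0) = cth eps G0 (x i * x j) := by
  have h1 : (x j * x 0)⁻¹ = x 0 * x j := by rw [mul_inv_rev, H.iinv, H.iinv]
  have h2 : x i * x j = (x i * x 0) * (x j * x 0)⁻¹ := by
    rw [h1, mul_assoc, ← mul_assoc (x 0), H.inv, one_mul]
  rw [h2, cth_mul (H.even i 0) (H.mem2 i 0) (by rw [map_inv, H.even, inv_one]) (G0.inv_mem (H.mem2 j 0)),
    cth_inv (H.even j 0) (H.mem2 j 0), sub_eq_add_neg]

theorem IvT.cth_swap (i j : Fin 3) : cth eps G0 (x j * x i) = -cth eps G0 (x i * x j) := by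
  rw [← cth_inv (H.even i j) (H.mem2 i j), mul_inv_rev, H.iinv, H.iinv]

theorem IvT.gn {t a b : Fin 3} (hta : t ≠ a) (htb : t ≠ b) (hab : a ≠ b) :
    Gn (cth eps G0 (x a * x t)) (cth eps G0 (x b * x t)) := by
  set A := AddSubgroup.closure {cth eps G0 (x a * x t), cth eps G0 (x b * x t)} with hA
  have hi : ∀ i, cth eps G0 (x i * x t) ∈ A := by
    intro i
    rcases three hta htb hab i with rfl | rfl | rfl
    · rw [H.inv, cth_one]; exact A.zero_mem
    · exact AddSubgroup.subset_closure (by simp)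
    · exact AddSubgroup.subset_closure (by simp)
  have key : ∀ g ∈ Subgroup.closure (Set.range x), g ∈ G0 ∧ (eps g = 1 → cth eps G0 g ∈ A) ∧
      (eps g = -1 → cth eps G0 (g * x t) ∈ A) := by
    have step : ∀ (g : Q) (i : Fin 3), (g ∈ G0 ∧ (eps g = 1 → cth eps G0 g ∈ A) ∧
        (eps g = -1 → cth eps G0 (g * x t) ∈ A)) → (g * x i ∈ G0 ∧ (eps (g * x i) = 1 → cth eps G0 (g * x i) ∈ A) ∧
        (eps (g * x i) = -1 → cth eps G0 (g * x i * x t) ∈ A)) := by
      rintro g i ⟨h0, h1, h2⟩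
      refine ⟨G0.mul_mem h0 (H.mem i), fun h3 => ?_, fun h3 => ?_⟩
      · have h4 : eps g = -1 := by
          rcases Int.units_eq_one_or (eps g) with h | h
          · rw [map_mul, h, H.neg, one_mul] at h3
            exact absurd h3 (by decide)
          · exact h
        have e1 : g * x i = (g * x t) * (x t * x i) := by
          rw [mul_assoc, ← mul_assoc (x t), H.inv, one_mul]
        rw [e1, cth_mul (by rw [map_mul, h4, H.neg]; decide) (G0.mul_mem h0 (H.mem t)) (H.even t i) (H.mem2 t i),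
          H.cth_swap]
        exact A.add_mem (h2 h4) (A.neg_mem (hi i))
      · have h4 : eps g = 1 := by
          rcases Int.units_eq_one_or (eps g) with h | h
          · exact h
          · rw [map_mul, h, H.neg] at h3
            exact absurd h3 (by decide)
        rw [mul_assoc, cth_mul h4 h0 (H.even i t) (H.mem2 i t)]
        exact A.add_mem (h1 h4) (hi i)
    intro g hg
    induction hg using Subgroup.closure_induction_right with
    | one => exact ⟨G0.one_mem, fun _ => by rw [cth_one]; exact A.zero_mem, fun h => absurd h (by rw [map_one]; decide)⟩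
    | mul_right y hy z hz ih =>
      obtain ⟨i, rfl⟩ := hz
      exact step _ _ ih
    | mul_inv_cancel y hy z hz ih =>
      obtain ⟨i, rfl⟩ := hz
      rw [H.iinv]
      exact step _ _ ih
  intro m
  obtain ⟨g, hg, h0, rfl⟩ := cth_surj m
  have h1 := (key g (H.gen h0)).2.1 hg
  rw [hA, AddSubgroup.mem_closure_pair] at h1
  obtain ⟨i, j, h⟩ := h1
  exact ⟨i, j, h.symm⟩

/-- The classes of the letters. -/
noncomputable def hhT {Q : Type*} [Group Q] (eps : Q →* ℤˣ) (G0 : Subgroup Q) (x : Fin 3 → Q) (i : Fin 3) : Th eps G0 :=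
  cth eps G0 (x i * x 0)

theorem IvT.hh_sub (i j : Fin 3) : hhT eps G0 x i - hhT eps G0 x j = cth eps G0 (x i * x j) := H.h_sub i j

theorem IvT.hh_gn (t a b : Fin 3) (hta : t ≠ a) (htb : t ≠ b) (hab : a ≠ b) :
    Gn (hhT eps G0 x a - hhT eps G0 x t) (hhT eps G0 x b - hhT eps G0 x t) := by
  rw [H.hh_sub, H.hh_sub]
  exact H.gn hta htb hab

omit H

/-! ### A section of the cosets -/

/-- `r` is a section of the cosets of `G0 ∩ ker eps` in `ker eps` (as in `H49.places`). -/
structure Sct (eps : Q →* ℤˣ) (G0 : Subgroup Q) (r : eps.ker → eps.ker) : Prop where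
  mem : ∀ y, (r y)⁻¹ * y ∈ G0.subgroupOf eps.ker
  cst : ∀ y y', y⁻¹ * y' ∈ G0.subgroupOf eps.ker → r y = r y'

open Classical in
/-- The section as a function on the group. -/
noncomputable def rr (eps : Q →* ℤˣ) (r : eps.ker → eps.ker) (g : Q) : Q := if h : eps g = 1 then (r ⟨g, h⟩ : Q) else 1

theorem rr_of {r : eps.ker → eps.ker} {g : Q} (h : eps g = 1) : rr eps r g = (r ⟨g, h⟩ : Q) := dif_pos h

theorem rr_coe {r : eps.ker → eps.ker} (y : eps.ker) : rr eps r y = r y := rr_of y.2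

theorem rr_eps (r : eps.ker → eps.ker) (g : Q) : eps (rr eps r g) = 1 := by
  unfold rr
  split_ifs with h
  · exact (r ⟨g, h⟩).2
  · exact map_one _

theorem rr_mem {r : eps.ker → eps.ker} (hr : Sct eps G0 r) {g : Q} (h : eps g = 1) : (rr eps r g)⁻¹ * g ∈ G0 := by
  rw [rr_of h]
  exact hr.mem ⟨g, h⟩

theorem rr_mul {r : eps.ker → eps.ker} (hr : Sct eps G0 r) {g w : Q} (h : eps g = 1) (hw : eps w = 1) (hw0 : w ∈ G0) :
    rr eps r (g * w) = rr eps r g := by
  have h2 : eps (g * w) = 1 := by rw [map_mul, h, hw, mul_one]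
  rw [rr_of h, rr_of h2]
  refine congrArg Subtype.val (hr.cst ⟨g * w, h2⟩ ⟨g, h⟩ ?_)
  show (g * w)⁻¹ * g ∈ G0
  rw [mul_inv_rev, inv_mul_cancel_right]
  exact G0.inv_mem hw0

/-- The coordinate for the middle letter `t`. -/
noncomputable def kr (eps : Q →* ℤˣ) (G0 : Subgroup Q) (x : Fin 3 → Q) (r : eps.ker → eps.ker) (t : Fin 3) (g : Q) :
    Th eps G0 :=
  open Classical in if eps g = 1 then cth eps G0 ((rr eps r g)⁻¹ * g)
    else cth eps G0 ((rr eps r (g * x t))⁻¹ * (g * x t))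

variable {r : eps.ker → eps.ker}

theorem kr_pos {t : Fin 3} {g : Q} (h : eps g = 1) : kr eps G0 x r t g = cth eps G0 ((rr eps r g)⁻¹ * g) := if_pos h

theorem kr_neg {t : Fin 3} {g : Q} (h : eps g = -1) :
    kr eps G0 x r t g = cth eps G0 ((rr eps r (g * x t))⁻¹ * (g * x t)) := if_neg (by rw [h]; decide)

theorem kr_coe {t : Fin 3} (y : eps.ker) (h : (r y)⁻¹ * y ∈ G0.subgroupOf eps.ker) :
    kr eps G0 x r t y = Additive.ofMul (Abelianization.of (⟨(r y)⁻¹ * y, h⟩ : G0.subgroupOf eps.ker)) := by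
  rw [kr_pos y.2, rr_coe]
  exact cth_coe ⟨(r y)⁻¹ * y, h⟩

/-- Right multiplication of an even element by an element of `G0 ∩ ker eps`. -/
theorem kr_mul (hr : Sct eps G0 r) {t : Fin 3} {g w : Q} (h : eps g = 1) (hw : eps w = 1) (hw0 : w ∈ G0) :
    kr eps G0 x r t (g * w) = kr eps G0 x r t g + cth eps G0 w := by
  rw [kr_pos h, kr_pos (by rw [map_mul, h, hw, mul_one]), rr_mul hr h hw hw0, ← mul_assoc,
    cth_mul (by rw [map_mul, map_inv, rr_eps, h, inv_one, one_mul]) (rr_mem hr h) hw hw0]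

include H

theorem IvT.kr_t (t : Fin 3) (g : Q) : kr eps G0 x r t (g * x t) = kr eps G0 x r t g := by
  rcases Int.units_eq_one_or (eps g) with h | h
  · rw [kr_pos h, kr_neg (by rw [map_mul, h, H.neg, one_mul]), mul_assoc, H.inv, mul_one]
  · rw [kr_neg h, kr_pos (by rw [map_mul, h, H.neg]; decide)]

theorem IvT.kr_step (hr : Sct eps G0 r) (t i : Fin 3) (g : Q) : kr eps G0 x r t (g * x i) =
    if eps g = 1 then kr eps G0 x r t g + cth eps G0 (x i * x t) else kr eps G0 x r t g - cth eps G0 (x i * x t) := by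
  rcases Int.units_eq_one_or (eps g) with h | h
  · rw [if_pos h, ← H.kr_t t (g * x i), mul_assoc, kr_mul hr h (H.even i t) (H.mem2 i t)]
  · rw [if_neg (by rw [h]; decide), ← H.kr_t t g]
    have h1 : g * x i = (g * x t) * (x t * x i) := by
      rw [mul_assoc, ← mul_assoc (x t), H.inv, one_mul]
    rw [h1, kr_mul hr (by rw [map_mul, h, H.neg]; decide) (H.even t i) (H.mem2 t i), H.cth_swap, sub_eq_add_neg]

/-- Left multiplication by an element of `G0 ∩ ker eps` which is centralised by `ker eps`. -/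
theorem IvT.kr_left (hr : Sct eps G0 r) (t : Fin 3) {z : Q} (hz : eps z = 1) (hz0 : z ∈ G0)
    (hc : ∀ y, eps y = 1 → z * y = y * z) (g : Q) : kr eps G0 x r t (z * g) = kr eps G0 x r t g + cth eps G0 z := by
  rcases Int.units_eq_one_or (eps g) with h | h
  · rw [hc g h, kr_mul hr h hz hz0]
  · have h1 : eps (g * x t) = 1 := by rw [map_mul, h, H.neg]; decide
    rw [← H.kr_t t (z * g), ← H.kr_t t g, mul_assoc, hc _ h1, kr_mul hr h1 hz hz0]

/-- The sign and the coordinate. -/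
noncomputable def IvT.co {B : Lb.{u, v} Q} {l : L3 → B.L} {t a b : Fin 3} (hta : t ≠ a) (htb : t ≠ b) (hab : a ≠ b)
    (ht : B.q (l .t) = x t) (ha : B.q (l .a) = x a) (hb : B.q (l .b) = x b) (hr : Sct eps G0 r) :
    Co B l (cth eps G0 (x a * x t)) (cth eps G0 (x b * x t)) where
  s g := decide (eps g = 1)
  k g := kr eps G0 x r t g
  hs g i := by
    have hi : eps (B.q (l i)) = -1 := by
      cases i
      · rw [ha]; exact H.neg _
      · rw [hb]; exact H.neg _
      · rw [ht]; exact H.neg _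
    rcases Int.units_eq_one_or (eps g) with h | h
    · rw [map_mul, h, hi]; decide
    · rw [map_mul, h, hi]; decide
  ht g := by rw [ht, H.kr_t]
  ha g := by
    rw [ha, H.kr_step hr]
    simp only [decide_eq_true_eq]
  hb g := by
    rw [hb, H.kr_step hr]
    simp only [decide_eq_true_eq]
  gen g := H.gn hta htb hab _

/-- The fibres of the coordinate in one coset of `G0`. -/
theorem IvT.fibre (hr : Sct eps G0 r) (t : Fin 3) {g g' : Q} (h0 : g⁻¹ * g' ∈ G0) :
    (eps g = eps g' ∧ kr eps G0 x r t g = kr eps G0 x r t g') ↔ g⁻¹ * g' ∈ KH eps G0 := by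
  have key : ∀ {y y' : Q}, eps y = 1 → eps y' = 1 → y⁻¹ * y' ∈ G0 →
      (kr eps G0 x r t y = kr eps G0 x r t y' ↔ cth eps G0 (y⁻¹ * y') = 0) := by
    intro y y' h h' hy
    have e1 := kr_mul hr (t := t) (x := x) h (by rw [map_mul, map_inv, h, h', inv_one, one_mul] : eps (y⁻¹ * y') = 1) hy
    rw [mul_inv_cancel_left] at e1
    rw [e1, left_eq_add]
  rcases Int.units_eq_one_or (eps g) with h | h <;> rcases Int.units_eq_one_or (eps g') with h' | h'
  · rw [mem_KH, key h h' h0, map_mul, map_inv, h, h']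
    simp [h0]
  · rw [mem_KH, map_mul, map_inv, h, h']
    constructor
    · rintro ⟨h1, -⟩; exact absurd h1 (by decide)
    · rintro ⟨h1, -⟩; exact absurd h1 (by decide)
  · rw [mem_KH, map_mul, map_inv, h, h']
    constructor
    · rintro ⟨h1, -⟩; exact absurd h1 (by decide)
    · rintro ⟨h1, -⟩; exact absurd h1 (by decide)
  · have e1 : eps (g * x t) = 1 := by rw [map_mul, h, H.neg]; decide
    have e2 : eps (g' * x t) = 1 := by rw [map_mul, h', H.neg]; decide
    have e3 : (g * x t)⁻¹ * (g' * x t) = (x t)⁻¹ * (g⁻¹ * g') * x t := by group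
    have e4 : (x t)⁻¹ * (g⁻¹ * g') * x t ∈ G0 := G0.mul_mem (G0.mul_mem (G0.inv_mem (H.mem t)) h0) (H.mem t)
    have e5 : eps ((x t)⁻¹ * (g⁻¹ * g') * x t) = 1 := by
      rw [← e3, map_mul, map_inv, e1, e2]; decide
    rw [← H.kr_t t g, ← H.kr_t t g', key e1 e2 (by rw [e3]; exact e4), ← KH_conj_iff (H.mem t), e3, mem_KH, h, h']
    simp [e4, e5]

end letters

end Pool.Agent.Lib.MP_688fd0_co.SQ5.H58
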