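import Pool.Agent.Lib.MP_688fd0_co.SQ5.H58.Num

/-!
Type C2, far triples (helper58), row NUM: the order of `C`.
-/

set_option autoImplicit false

namespace Pool.Agent.Lib.MP_688fd0_co.SQ5.H58

open Pool.Agent.Lib.MP_688fd0_co.OSF
open Pool.Agent.Lib.MP_688fd0_co.SQ3

variable {G : Type} [Group G] [Finite G] {N C : Subgroup G} {eps : G →* ℤˣ} {k P : ℕ} {a t b : G} {c₁ : ℕ}

/-- The order of `C`. -/
theorem card_C_tri (h : SQD.Tri N C eps k P a t b c₁) :
    Nat.card C * k ≤ 2 ^ ((k + (Nat.card G).primeFactorsList.length) ^ (c₁ + 1)) := by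
  set Ω := (Nat.card G).primeFactorsList.length with hΩ
  have hk := four_le h
  have hC0 : Nat.card C ≠ 0 := Nat.card_pos.ne'
  have h1 : Nat.card C ≤ (2 ^ ((k + Ω) ^ c₁)) ^ Ω := by
    have h2 : (Nat.card C).primeFactorsList.length ≤ Ω := length_le (Subgroup.card_subgroup_dvd_card C) Nat.card_pos.ne'
    calc Nat.card C = (Nat.card C).primeFactorsList.prod := (Nat.prod_primeFactorsList hC0).symm
      _ ≤ (2 ^ ((k + Ω) ^ c₁)) ^ (Nat.card C).primeFactorsList.length := by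
          refine List.prod_le_pow_card _ _ fun p hp => ?_
          exact (h.small p (Nat.mem_primeFactors.2 ⟨Nat.prime_of_mem_primeFactorsList hp,
            Nat.dvd_of_mem_primeFactorsList hp, hC0⟩)).le
      _ ≤ _ := Nat.pow_le_pow_right (Nat.pos_of_ne_zero (by positivity)) h2
  have h4 : k ≤ 2 ^ ((k + Ω) ^ c₁ * k) := by
    calc k ≤ 2 ^ k := Nat.lt_two_pow_self.le
      _ ≤ _ := Nat.pow_le_pow_right (by norm_num) (Nat.le_mul_of_pos_left _ (Nat.pow_pos (by omega)))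
  calc Nat.card C * k ≤ (2 ^ ((k + Ω) ^ c₁)) ^ Ω * 2 ^ ((k + Ω) ^ c₁ * k) := Nat.mul_le_mul h1 h4
    _ = 2 ^ ((k + Ω) ^ (c₁ + 1)) := by
      rw [← pow_mul, ← pow_add]
      congr 1
      ring

theorem card_C_le_tri (h : SQD.Tri N C eps k P a t b c₁) :
    Nat.card C ≤ 2 ^ ((k + (Nat.card G).primeFactorsList.length) ^ (c₁ + 1)) :=
  (Nat.le_mul_of_pos_right _ (by have := four_le h; omega)).trans (card_C_tri h)

end Pool.Agent.Lib.MP_688fd0_co.SQ5.H58
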