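import Pool.Agent.Lib.MP_688fd0_co.SQ5.H58.NumB

/-!
Type C2, far triples (helper58), row NUM: the numbers.
-/

set_option autoImplicit false

namespace Pool.Agent.Lib.MP_688fd0_co.SQ5.H58

open Pool.Agent.Lib.MP_688fd0_co.OSF Pool.Agent.Lib.MP_688fd0_co.SQ5.H66 Pool.Agent.Lib.MP_688fd0_co.SQ5.H76
open Pool.Agent.Lib.MP_688fd0_co.SQ3

/-- The classes of the letters. -/
noncomputable def hh {Q : Type*} [Group Q] (eps : Q →* ℤˣ) (x : Fin 3 → Q) (i : Fin 3) : Tt eps := ct eps (x i * x 0)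

theorem Inv3.hh_sub {Q : Type*} [Group Q] {eps : Q →* ℤˣ} {x : Fin 3 → Q} (H : Inv3 eps x) (i j : Fin 3) :
    hh eps x i - hh eps x j = ct eps (x i * x j) := H.h_sub i j

theorem Inv3.hh_gn {Q : Type*} [Group Q] {eps : Q →* ℤˣ} {x : Fin 3 → Q} (H : Inv3 eps x) (t a b : Fin 3) (hta : t ≠ a)
    (htb : t ≠ b) (hab : a ≠ b) : Gn (hh eps x a - hh eps x t) (hh eps x b - hh eps x t) := by
  rw [H.hh_sub, H.hh_sub]
  exact H.gn hta htb hab

section

variable {G : Type} [Group G] [Finite G] {N C : Subgroup G} {eps : G →* ℤˣ} {k P : ℕ} {a t b : G} {c₁ : ℕ}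

theorem four_le (h : SQD.Tri N C eps k P a t b c₁) : 4 ≤ k := by
  have hle : N ≤ eps.ker := fun n hn => h.gn.eN n hn
  have h1 := Subgroup.relIndex_mul_index hle
  rw [h.gn.idx] at h1
  have h2 : eps.ker.index = 2 := by
    rw [Subgroup.index_ker]
    have h3 : eps.range = ⊤ := by
      rw [MonoidHom.range_eq_top]
      intro y
      rcases Int.units_eq_one_or y with rfl | rfl
      · exact ⟨1, map_one _⟩
      · exact ⟨a, h.ea⟩
    rw [h3]
    have : Nat.card (⊤ : Subgroup ℤˣ) = Nat.card ℤˣ := Subgroup.card_top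
    rw [this, Nat.card_eq_fintype_card]
    rfl
  have h3 : N.relIndex eps.ker ≠ 0 := by
    have : N.relIndex eps.ker ∣ N.index := by
      rw [h.gn.idx, ← h1]
      exact Dvd.intro _ rfl
    intro h0
    rw [h0, zero_dvd_iff] at this
    exact N.index_ne_zero_of_finite this
  have h4 : N.relIndex eps.ker ≠ 1 := by
    intro h0
    rw [Subgroup.relIndex_eq_one] at h0
    apply h.nab
    intro x y hx hy
    refine h0 ?_
    show eps _ = 1
    rw [map_mul, map_mul, map_mul, map_inv, map_inv, hx, hy]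
    decide
  rw [h2] at h1
  omega

/-- `Ω` of a subgroup. -/
theorem length_le {m n : ℕ} (h : m ∣ n) (hn : n ≠ 0) : m.primeFactorsList.length ≤ n.primeFactorsList.length :=
  (Nat.primeFactorsList_sublist_of_dvd h hn).length_le

/-- The order of the fibre. -/
theorem card_K0_le (h : SQD.Tri N C eps k P a t b c₁) :
    Nat.card (K0 eps) ≤ 2 ^ ((k + (Nat.card G).primeFactorsList.length) ^ (c₁ + 1)) := by
  set Ω := (Nat.card G).primeFactorsList.length with hΩ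
  have hk := four_le h
  have hC0 : Nat.card C ≠ 0 := Nat.card_pos.ne'
  have h1 : Nat.card C ≤ (2 ^ ((k + Ω) ^ c₁)) ^ Ω := by
    have h2 : (Nat.card C).primeFactorsList.length ≤ Ω := length_le (Subgroup.card_subgroup_dvd_card C) Nat.card_pos.ne'
    calc Nat.card C = (Nat.card C).primeFactorsList.prod := (Nat.prod_primeFactorsList hC0).symm
      _ ≤ (2 ^ ((k + Ω) ^ c₁)) ^ (Nat.card C).primeFactorsList.length := by
          refine List.prod_le_pow_card _ _ fun p hp => ?_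
          exact (h.small p (Nat.mem_primeFactors.2 ⟨Nat.prime_of_mem_primeFactorsList hp,
            Nat.dvd_of_mem_primeFactorsList hp, hC0⟩)).le
      _ ≤ _ := Nat.pow_le_pow_right (Nat.pos_of_ne_zero (by positivity)) h2
  have h3 : Nat.card (K0 eps) ≤ Nat.card C * k :=
    Nat.le_of_dvd (Nat.mul_pos (Nat.pos_of_ne_zero hC0) (by omega)) (card_K0_dvd h.gn)
  have h4 : k ≤ 2 ^ ((k + Ω) ^ c₁ * k) := by
    calc k ≤ 2 ^ k := Nat.lt_two_pow_self.le
      _ ≤ _ := Nat.pow_le_pow_right (by norm_num) (Nat.le_mul_of_pos_left _ (Nat.pow_pos (by omega)))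
  calc Nat.card (K0 eps) ≤ Nat.card C * k := h3
    _ ≤ (2 ^ ((k + Ω) ^ c₁)) ^ Ω * 2 ^ ((k + Ω) ^ c₁ * k) := Nat.mul_le_mul h1 h4
    _ = 2 ^ ((k + Ω) ^ (c₁ + 1)) := by
      rw [← pow_mul, ← pow_add]
      congr 1
      ring

end

/-- NUM. -/
theorem num (e' : ℕ) : ∃ e : ℕ, ∀ c₁ c₂ : ℕ, ∃ c₀ : ℕ, ∀ (G : Type) [Group G] [Finite G] (N C : Subgroup G)
    (eps : G →* ℤˣ) (k P : ℕ) (a t b : G), SQD.Tri N C eps k P a t b c₁ →
    ¬ SQD.Rel P a t b ((k + (Nat.card G).primeFactorsList.length) ^ e) →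
    2 ^ ((k + (Nat.card G).primeFactorsList.length) ^ c₀) ≤ P →
      Inv3 eps ![a, t, b] ∧ 4 ≤ k ∧
      (∀ K : ℕ, K ≤ (k + (Nat.card G).primeFactorsList.length) ^ e' → ∀ n : Fin 3 → ℤ,
        Rel (hh eps ![a, t, b]) n → (∀ i, |n i| < 4 * K) → n = 0) ∧
      (∀ E K : ℕ, E + 2 * K ≤ 2 ^ ((k + (Nat.card G).primeFactorsList.length) ^ c₂) →
        (E + 2 * K) ^ 2 < Nat.card (Tt eps)) ∧
      Nat.card (K0 eps) ≤ 2 ^ ((k + (Nat.card G).primeFactorsList.length) ^ (c₁ + 1)) ∧ 0 < Nat.card (K0 eps) ∧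
      P ∣ Nat.card (Tt eps) ∧ ¬ P ∣ Nat.card (K0 eps) ∧ K0 eps ⊓ N ≤ C := by
  refine ⟨e' + 1, fun c₁ c₂ => ⟨c₂ + 1, ?_⟩⟩
  intro G _ _ N C eps k P a t b h hR hP
  set S := k + (Nat.card G).primeFactorsList.length with hS
  have hk := four_le h
  have hS4 : 4 ≤ S := by omega
  have hT0 : 0 < Nat.card (Tt eps) := by
    have : Finite (Tt eps) := inferInstanceAs (Finite (Additive (Abelianization eps.ker)))
    exact Nat.card_pos
  refine ⟨inv3 h, hk, ?_, ?_, card_K0_le h, Nat.card_pos, dvd_T h.gn, not_dvd_K0 h.gn, K0_inf_le h.gn⟩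
  · intro K hK n hn hlt
    by_contra hne
    refine hR (rel_of h hn hne fun i => ?_)
    have h1 := (hlt i).le
    have h2 : 4 * K ≤ S ^ (e' + 1) := by
      calc 4 * K ≤ 4 * S ^ e' := Nat.mul_le_mul_left _ hK
        _ ≤ S * S ^ e' := Nat.mul_le_mul_right _ hS4
        _ = S ^ (e' + 1) := (pow_succ' _ _).symm
    have h3 : ((4 * K : ℕ) : ℤ) ≤ ((S ^ (e' + 1) : ℕ) : ℤ) := by exact_mod_cast h2
    push_cast at h3 ⊢
    linarith
  · intro E K hE
    have h1 : (E + 2 * K) ^ 2 ≤ (2 ^ (S ^ c₂)) ^ 2 := Nat.pow_le_pow_left hE 2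
    have h2 : (2 ^ (S ^ c₂)) ^ 2 < 2 ^ (S ^ (c₂ + 1)) := by
      rw [← pow_mul]
      refine Nat.pow_lt_pow_right (by norm_num) ?_
      rw [pow_succ]
      exact Nat.mul_lt_mul_of_pos_left (by omega) (Nat.pow_pos (by omega))
    exact h1.trans_lt (h2.trans_le (hP.trans (Nat.le_of_dvd hT0 (dvd_T h.gn))))

end Pool.Agent.Lib.MP_688fd0_co.SQ5.H58
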