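import Pool.Agent.Lib.MP_688fd0_co.SQ5.H58.Num
import Pool.Agent.Lib.MP_688fd0_co.SQ5.H24.LayB

/-!
Type C2, far triples (helper58), row NUM: the layout exists (helper24's second version).
-/

set_option autoImplicit false

namespace Pool.Agent.Lib.MP_688fd0_co.SQ5.H58

open Pool.Agent.Lib.MP_688fd0_co.OSF Pool.Agent.Lib.MP_688fd0_co.SQ5.H66 Pool.Agent.Lib.MP_688fd0_co.SQ5.H76
open Pool.Agent.Lib.MP_688fd0_co.SQ3 Pool.Agent.Lib.MP_688fd0_co.SQ5.H24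

/-- The parameter `K`. -/
def Kp (r w nh kq : ℕ) : ℕ := 9 * (2 * r + w + 34) + (50 + 8 * nh + 16 * kq)

/-- The parameter `E`. -/
def Ep (r w nh kq Gr : ℕ) : ℕ := (2 * Kp r w nh kq + 4 * nh + 6) * (Gr + 8 * kq + 40)

theorem Kp_le {r w nh kq S' : ℕ} (h1 : 1 ≤ S') (hr : r ≤ S') (hw : w ≤ S') (hB : nh ≤ S') (hk : kq ≤ S') :
    Kp r w nh kq ≤ 407 * S' := by
  unfold Kp
  omega

/-- `(2 K' + 4 nh + 6) (Gr + 8 kq + 40) + 2 K'` is small if `K' ≤ 500 S'`. -/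
theorem E_le {S e₁ c₂ K' nh kq Gr : ℕ} (hS : 4 ≤ S) (hK : K' ≤ 500 * S ^ e₁) (hB : nh ≤ S ^ e₁)
    (hk : kq ≤ S ^ e₁) (hG : Gr ≤ 2 ^ (S ^ c₂)) :
    (2 * K' + 4 * nh + 6) * (Gr + 8 * kq + 40) + 2 * K' ≤ 2 ^ (S ^ (max c₂ (e₁ + 6) + 1)) := by
  set m := max c₂ (e₁ + 6) with hm
  have h1 : 1 ≤ S ^ e₁ := Nat.one_le_pow _ _ (by omega)
  set A := S ^ (e₁ + 6) with hA
  have hA1 : 4096 * S ^ e₁ ≤ A := by
    rw [hA, pow_add, mul_comm]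
    refine Nat.mul_le_mul_left _ ?_
    calc 4096 = 4 ^ 6 := by norm_num
      _ ≤ S ^ 6 := Nat.pow_le_pow_left hS 6
  have hA2 : A ≤ S ^ m := Nat.pow_le_pow_right (by omega) (le_max_right _ _)
  have hA3 : A ≤ 2 ^ (S ^ m) := (Nat.lt_two_pow_self.le).trans (Nat.pow_le_pow_right (by norm_num) hA2)
  have hG' : Gr ≤ 2 ^ (S ^ m) := hG.trans (Nat.pow_le_pow_right (by norm_num)
    (Nat.pow_le_pow_right (by omega) (le_max_left _ _)))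
  have h2 : 2 * K' + 4 * nh + 6 ≤ A := by omega
  have h3 : Gr + 8 * kq + 40 ≤ 2 * 2 ^ (S ^ m) := by omega
  have h4 : (2 * K' + 4 * nh + 6) * (Gr + 8 * kq + 40) ≤ 2 ^ (2 * S ^ m + 1) := by
    calc (2 * K' + 4 * nh + 6) * (Gr + 8 * kq + 40) ≤ 2 ^ (S ^ m) * (2 * 2 ^ (S ^ m)) :=
          Nat.mul_le_mul (h2.trans hA3) h3
      _ = 2 ^ (2 * S ^ m + 1) := by
        have e1 : 2 ^ (2 * S ^ m) = 2 ^ (S ^ m) * 2 ^ (S ^ m) := by rw [← pow_add, ← two_mul]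
        rw [pow_succ, e1]
        ring
  have h5 : 2 * K' ≤ 2 ^ (2 * S ^ m + 1) := by
    have : 2 ^ (S ^ m) ≤ 2 ^ (2 * S ^ m + 1) := Nat.pow_le_pow_right (by norm_num) (by omega)
    omega
  calc (2 * K' + 4 * nh + 6) * (Gr + 8 * kq + 40) + 2 * K' ≤ 2 ^ (2 * S ^ m + 1) + 2 ^ (2 * S ^ m + 1) :=
        Nat.add_le_add h4 h5
    _ = 2 ^ (2 * S ^ m + 2) := by rw [← two_mul, ← pow_succ']
    _ ≤ 2 ^ (S ^ (m + 1)) := by
      refine Nat.pow_le_pow_right (by norm_num) ?_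
      have h6 : 1 ≤ S ^ m := Nat.one_le_pow _ _ (by omega)
      calc 2 * S ^ m + 2 ≤ 4 * S ^ m := by omega
        _ ≤ S ^ m * S := by rw [mul_comm]; exact Nat.mul_le_mul_left _ hS
        _ = S ^ (m + 1) := (pow_succ _ _).symm

/-- NUM together with the layout: `r, w, nh, kq` at most `S ^ e₁`, run length `Gr` at most `2 ^ (S ^ c₂)`. -/
theorem num_lay (e₁ : ℕ) : ∃ e : ℕ, ∀ c₁ c₂ : ℕ, ∃ c₀ : ℕ, ∀ (G : Type) [Group G] [Finite G] (N C : Subgroup G)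
    (eps : G →* ℤˣ) (k P : ℕ) (a t b : G), SQD.Tri N C eps k P a t b c₁ →
    ¬ SQD.Rel P a t b ((k + (Nat.card G).primeFactorsList.length) ^ e) →
    2 ^ ((k + (Nat.card G).primeFactorsList.length) ^ c₀) ≤ P →
      Inv3 eps ![a, t, b] ∧ 4 ≤ k ∧
      Nat.card (K0 eps) ≤ 2 ^ ((k + (Nat.card G).primeFactorsList.length) ^ (c₁ + 1)) ∧ 0 < Nat.card (K0 eps) ∧
      P ∣ Nat.card (Tt eps) ∧ ¬ P ∣ Nat.card (K0 eps) ∧ K0 eps ⊓ N ≤ C ∧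
      ∀ (r w nh kq m TT Gr : ℕ), 1 ≤ r → Nums (kq : ℤ) nh m TT Gr →
        r ≤ (k + (Nat.card G).primeFactorsList.length) ^ e₁ → w ≤ (k + (Nat.card G).primeFactorsList.length) ^ e₁ →
        nh ≤ (k + (Nat.card G).primeFactorsList.length) ^ e₁ → kq ≤ (k + (Nat.card G).primeFactorsList.length) ^ e₁ →
        Gr ≤ 2 ^ ((k + (Nat.card G).primeFactorsList.length) ^ c₂) → ∀ {t₁ t₂ : Fin 3}, t₁ ≠ t₂ →
        ∃ s, (s = t₁ ∨ s = t₂) ∧ ∃ a' b' : Fin 3, s ≠ a' ∧ s ≠ b' ∧ a' ≠ b' ∧ ∃ R : ℕ,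
          2 * r + w + 6 ≤ R ∧ R ≤ 2 * r + w + 34 ∧
          ∃ g : Geo (Ltc (hh eps ![a, t, b] a' - hh eps ![a, t, b] s) (hh eps ![a, t, b] b' - hh eps ![a, t, b] s))
            (Nat.card (Tt eps)) R (dcL (2 * r + w + 1) (dB r w)) (spL (2 * r + w + 1)) Gr,
          Lay g kq nh m TT (2 * r + w + 1) ∧
          g.i0 - g.j0 < 2 * Kp r w nh kq ∧ (Ep r w nh kq Gr : ℤ) < g.i0 + g.j0 ∧
          (g.i0 + g.j0) * Kp r w nh kq ≤ Nat.card (Tt eps) := by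
  obtain ⟨e, he⟩ := num (e₁ + 5)
  refine ⟨e, fun c₁ c₂ => ?_⟩
  obtain ⟨c₀, hc⟩ := he c₁ (max c₂ (e₁ + 6) + 1)
  refine ⟨c₀, ?_⟩
  intro G _ _ N C eps k P a t b h hR hP
  obtain ⟨h1, h2, h3, h4, h5, h6, h7, h8, h9⟩ := hc G N C eps k P a t b h hR hP
  refine ⟨h1, h2, h5, h6, h7, h8, h9, ?_⟩
  set S := k + (Nat.card G).primeFactorsList.length with hS
  have hS4 : 4 ≤ S := by omega
  have hS1 : 1 ≤ S ^ e₁ := Nat.one_le_pow _ _ (by omega)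
  intro r w nh kq m TT Gr hr hn hr' hw' hB' hk' hG2 t₁ t₂ htt
  have : Finite (Tt eps) := inferInstanceAs (Finite (Additive (Abelianization eps.ker)))
  have hK4 := Kp_le hS1 hr' hw' hB' hk'
  have hKle : Kp r w nh kq ≤ S ^ (e₁ + 5) := by
    refine hK4.trans ?_
    rw [pow_add, mul_comm]
    refine Nat.mul_le_mul_left _ ?_
    calc 407 ≤ 4 ^ 5 := by norm_num
      _ ≤ S ^ 5 := Nat.pow_le_pow_left hS4 5
  exact exists_layB (hh eps ![a, t, b]) h1.hh_gn (r := r) (w := w) hr hn (Kp r w nh kq)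
    (Ep r w nh kq Gr) (by unfold Kp; push_cast; linarith) (by unfold Ep; push_cast; linarith) (h3 _ hKle)
    (h4 _ _ (E_le hS4 (by omega) hB' hk' hG2)) htt

end Pool.Agent.Lib.MP_688fd0_co.SQ5.H58
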