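import Pool.Agent.Lib.MP_688fd0_co.SQ5.H58.ThrB
import Pool.Agent.Lib.MP_688fd0_co.SQ5.H58.NumLay

/-!
Type C2, threads over far bases (helper58), row NUM: the layout with a wide strip exists.
-/

set_option autoImplicit false

namespace Pool.Agent.Lib.MP_688fd0_co.SQ5.H58

open Pool.Agent.Lib.MP_688fd0_co.OSF Pool.Agent.Lib.MP_688fd0_co.SQ5.H66 Pool.Agent.Lib.MP_688fd0_co.SQ5.H76
open Pool.Agent.Lib.MP_688fd0_co.SQ3 Pool.Agent.Lib.MP_688fd0_co.SQ5.H24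
open Subgroup

/-- The total width without the wide strip. -/
def Wp (r w nh kq : ℕ) : ℕ := 9 * (2 * r + 2 * w + 34) + (54 + 8 * nh + 16 * kq)

theorem EK_le {S e₁ c₂ K E : ℕ} (hS : 4 ≤ S) (hK : K ≤ S ^ e₁) (hE : E ≤ 2 ^ (S ^ c₂)) :
    E + 2 * K ≤ 2 ^ (S ^ (max c₂ (e₁ + 1) + 1)) := by
  set m := max c₂ (e₁ + 1) with hm
  have h1 : E ≤ 2 ^ (S ^ m) := hE.trans (Nat.pow_le_pow_right (by norm_num)
    (Nat.pow_le_pow_right (by omega) (le_max_left _ _)))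
  have h2 : 2 * K ≤ 2 ^ (S ^ m) := by
    calc 2 * K ≤ S * S ^ e₁ := Nat.mul_le_mul (by omega) hK
      _ = S ^ (e₁ + 1) := (pow_succ' _ _).symm
      _ ≤ S ^ m := Nat.pow_le_pow_right (by omega) (le_max_right _ _)
      _ ≤ 2 ^ (S ^ m) := Nat.lt_two_pow_self.le
  calc E + 2 * K ≤ 2 ^ (S ^ m) + 2 ^ (S ^ m) := Nat.add_le_add h1 h2
    _ = 2 ^ (S ^ m + 1) := by rw [pow_succ]; ring
    _ ≤ 2 ^ (S ^ (m + 1)) := by
      refine Nat.pow_le_pow_right (by norm_num) ?_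
      have h3 : 1 ≤ S ^ m := Nat.one_le_pow _ _ (by omega)
      calc S ^ m + 1 ≤ 2 * S ^ m := by omega
        _ ≤ S ^ m * S := by rw [mul_comm]; exact Nat.mul_le_mul_left _ (by omega)
        _ = S ^ (m + 1) := (pow_succ _ _).symm

/-- NUM together with the layout of LEVEL 2, `K` and `E` free: `K ≤ S ^ e₁`, `E ≤ 2 ^ (S ^ c₂)`. -/
theorem num_layE (e₁ : ℕ) : ∃ e : ℕ, ∀ c₁ c₂ : ℕ, ∃ c₀ : ℕ, ∀ (G : Type) [Group G] [Finite G] (N C : Subgroup G)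
    (eps : G →* ℤˣ) (k P : ℕ) (a t b : G), SQD.Tri N C eps k P a t b c₁ →
    ¬ SQD.Rel P a t b ((k + (Nat.card G).primeFactorsList.length) ^ e) →
    2 ^ ((k + (Nat.card G).primeFactorsList.length) ^ c₀) ≤ P →
      Inv3 eps ![a, t, b] ∧ 4 ≤ k ∧
      Nat.card (K0 eps) ≤ 2 ^ ((k + (Nat.card G).primeFactorsList.length) ^ (c₁ + 1)) ∧ 0 < Nat.card (K0 eps) ∧
      P ∣ Nat.card (Tt eps) ∧ ¬ P ∣ Nat.card (K0 eps) ∧ K0 eps ⊓ N ≤ C ∧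
      ∀ (r w nh kq m TT Gr K E : ℕ), 1 ≤ r → Nums (kq : ℤ) nh m TT Gr → Kp r w nh kq ≤ 2 * K →
        (2 * K + 4 * nh + 6) * (Gr + 8 * kq + 40) ≤ E → K ≤ (k + (Nat.card G).primeFactorsList.length) ^ e₁ →
        E ≤ 2 ^ ((k + (Nat.card G).primeFactorsList.length) ^ c₂) → ∀ {t₁ t₂ : Fin 3}, t₁ ≠ t₂ →
        ∃ s, (s = t₁ ∨ s = t₂) ∧ ∃ a' b' : Fin 3, s ≠ a' ∧ s ≠ b' ∧ a' ≠ b' ∧ ∃ R : ℕ,
          2 * r + w + 6 ≤ R ∧ R ≤ 2 * r + w + 34 ∧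
          ∃ g : Geo (Ltc (hh eps ![a, t, b] a' - hh eps ![a, t, b] s) (hh eps ![a, t, b] b' - hh eps ![a, t, b] s))
            (Nat.card (Tt eps)) R (dcL (2 * r + w + 1) (dB r w)) (spL (2 * r + w + 1)) Gr,
          Lay g kq nh m TT (2 * r + w + 1) ∧
          g.i0 - g.j0 < 2 * K ∧ (E : ℤ) < g.i0 + g.j0 ∧ (g.i0 + g.j0) * K ≤ Nat.card (Tt eps) := by
  obtain ⟨e, he⟩ := num e₁
  refine ⟨e, fun c₁ c₂ => ?_⟩
  obtain ⟨c₀, hc⟩ := he c₁ (max c₂ (e₁ + 1) + 1)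
  refine ⟨c₀, ?_⟩
  intro G _ _ N C eps k P a t b h hR hP
  obtain ⟨h1, h2, h3, h4, h5, h6, h7, h8, h9⟩ := hc G N C eps k P a t b h hR hP
  refine ⟨h1, h2, h5, h6, h7, h8, h9, ?_⟩
  set S := k + (Nat.card G).primeFactorsList.length with hS
  have hS4 : 4 ≤ S := by omega
  intro r w nh kq m TT Gr K E hr hn hK2 hE2 hK hE t₁ t₂ htt
  have : Finite (Tt eps) := inferInstanceAs (Finite (Additive (Abelianization eps.ker)))
  have q1 : ((Kp r w nh kq : ℕ) : ℤ) ≤ ((2 * K : ℕ) : ℤ) := by exact_mod_cast hK2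
  have q2 : (((2 * K + 4 * nh + 6) * (Gr + 8 * kq + 40) : ℕ) : ℤ) ≤ ((E : ℕ) : ℤ) := by exact_mod_cast hE2
  unfold Kp at q1
  push_cast at q1 q2
  exact exists_layB (hh eps ![a, t, b]) h1.hh_gn (r := r) (w := w) hr hn K E q1 q2 (h3 _ hK)
    (h4 _ _ (EK_le hS4 hK hE)) htt

/-- NUM together with the layout of LEVEL 3: `K ≤ S ^ e₁`, `E ≤ 2 ^ (S ^ c₂)`. -/
theorem num_layT (e₁ : ℕ) : ∃ e : ℕ, ∀ c₁ c₂ : ℕ, ∃ c₀ : ℕ, ∀ (G : Type) [Group G] [Finite G] (N C : Subgroup G)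
    (eps : G →* ℤˣ) (k P : ℕ) (A : Set G) (a t b : G), SQD.Inv N C eps k P A c₁ a t b →
    ¬ SQD.RelN N C a t b ((k + (Nat.card G).primeFactorsList.length) ^ e) →
    2 ^ ((k + (Nat.card G).primeFactorsList.length) ^ c₀) ≤ P →
      IvT eps (closure ({a, t, b} : Set G)) ![a, t, b] ∧ 4 ≤ k ∧
      Nat.card C * k ≤ 2 ^ ((k + (Nat.card G).primeFactorsList.length) ^ (c₁ + 1)) ∧ 0 < Nat.card C * k ∧
      Nat.card (KH eps (closure ({a, t, b} : Set G))) ∣ Nat.card C * k ∧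
      P ∣ Nat.card (Th eps (closure ({a, t, b} : Set G))) ∧
      (∀ o : ℕ, k * Nat.card C ∣ o → ∀ B : G, B ^ o ∈ N ∧ (∀ g, eps g = 1 → B ^ o * g = g * B ^ o) ∧
        ∀ g, eps g = -1 → g * B ^ o * g⁻¹ = (B ^ o)⁻¹) ∧
      ∀ (r w nh kq m TT Gr K E : ℕ), 1 ≤ r → Nums (kq : ℤ) nh m TT Gr → Wp r w nh kq + 6 ≤ 2 * K →
        (2 * K + 4 * nh + 6) * (Gr + 8 * kq + 40) ≤ E → K ≤ (k + (Nat.card G).primeFactorsList.length) ^ e₁ →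
        E ≤ 2 ^ ((k + (Nat.card G).primeFactorsList.length) ^ c₂) → ∀ {t₁ t₂ : Fin 3}, t₁ ≠ t₂ →
        ∃ s, (s = t₁ ∨ s = t₂) ∧ ∃ a' b' : Fin 3, s ≠ a' ∧ s ≠ b' ∧ a' ≠ b' ∧
          ∃ D : ℤ, D % 4 = 2 ∧ 6 ≤ D ∧ 2 * K ≤ D + Wp r w nh kq ∧
          ∃ R : ℕ, 2 * r + 2 * w + 6 ≤ R ∧ R ≤ 2 * r + 2 * w + 34 ∧
          ∃ g : Geo (Ltc (hhT eps (closure ({a, t, b} : Set G)) ![a, t, b] a' -
              hhT eps (closure ({a, t, b} : Set G)) ![a, t, b] s)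
              (hhT eps (closure ({a, t, b} : Set G)) ![a, t, b] b' - hhT eps (closure ({a, t, b} : Set G)) ![a, t, b] s))
            (Nat.card (Th eps (closure ({a, t, b} : Set G)))) R
            (dcL (2 * r + 2 * w + 1) (dW (dB r (2 * w)) (r + w) D)) (spL (2 * r + 2 * w + 1)) Gr,
          Lay g kq nh m TT (2 * r + 2 * w + 1) ∧
          2 * (Nat.card (Th eps (closure ({a, t, b} : Set G))) : ℤ) ≤ (g.i0 + g.j0) * (D + Wp r w nh kq) ∧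
          g.i0 - g.j0 < 2 * K ∧ (E : ℤ) < g.i0 + g.j0 ∧
          (g.i0 + g.j0) * K ≤ Nat.card (Th eps (closure ({a, t, b} : Set G))) := by
  obtain ⟨e, he⟩ := numT e₁
  refine ⟨e, fun c₁ c₂ => ?_⟩
  obtain ⟨c₀, hc⟩ := he c₁ (max c₂ (e₁ + 1) + 1)
  refine ⟨c₀, ?_⟩
  intro G _ _ N C eps k P A a t b h hR hP
  obtain ⟨h1, h2, h3, h4, h5, h6, h7, h8, h9⟩ := hc G N C eps k P A a t b h hR hP
  refine ⟨h1, h2, h5, h6, h7, h8, h9, ?_⟩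
  set S := k + (Nat.card G).primeFactorsList.length with hS
  have hS4 : 4 ≤ S := by omega
  intro r w nh kq m TT Gr K E hr hn hK2 hE2 hK hE t₁ t₂ htt
  have : Finite (Th eps (closure ({a, t, b} : Set G))) :=
    inferInstanceAs (Finite (Additive (Abelianization ((closure ({a, t, b} : Set G)).subgroupOf eps.ker))))
  have q1 : ((Wp r w nh kq + 6 : ℕ) : ℤ) ≤ ((2 * K : ℕ) : ℤ) := by exact_mod_cast hK2
  have q2 : (((2 * K + 4 * nh + 6) * (Gr + 8 * kq + 40) : ℕ) : ℤ) ≤ ((E : ℕ) : ℤ) := by exact_mod_cast hE2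
  push_cast at q1 q2
  exact exists_layT (hhT eps (closure ({a, t, b} : Set G)) ![a, t, b]) h1.hh_gn (r := r) (w := w) hr hn K E
    (W := (Wp r w nh kq : ℕ)) (by unfold Wp; push_cast; linarith) q1 q2 (h3 _ hK) (h4 _ _ (EK_le hS4 hK hE)) htt

end Pool.Agent.Lib.MP_688fd0_co.SQ5.H58
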