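import Pool.Agent.Lib.MP_688fd0_co.SQ5.H76.LayG
import Pool.Agent.Lib.MP_688fd0_co.SQ5.H84.Posc
import Pool.Agent.Lib.MP_688fd0_co.SQ5.H84.NumFT

/-!
Type C2, threads over far bases (helper58): the numbers of `exists_plan` (helper12) from the general layout (helper76).
-/

set_option autoImplicit false

namespace Pool.Agent.Lib.MP_688fd0_co.SQ5.H58

open Pool.Agent.Lib.MP_688fd0_co.OSF Pool.Agent.Lib.MP_688fd0_co.SQ5.H66 Pool.Agent.Lib.MP_688fd0_co.SQ5.H76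
open Pool.Agent.Lib.MP_688fd0_co.SQ3 Pool.Agent.Lib.MP_688fd0_co.SQ5.H24
open Subgroup

/-- The number of levels which the visits need. -/
def LP (n o gap : ℕ) : ℕ := 1000 * (4 * n ^ 2 + 1) * (8 * o) * (4 ^ (40 * n ^ 2 + 1) * (30 + 5 * (gap + 2)))

/-- The numbers of `exists_plan`, for one geometry. -/
theorem plan_nums {T : Type*} [AddCommGroup T] [Finite T] {al be : T} {R : ℕ} {dc : ℕ → ℤ} {spc : ℕ → Prop} {Gr : ℤ}
    (g : Geo (Ltc al be) (Nat.card T) R dc spc Gr) {kk : ℕ} (hkk : kk + 1 < R) (hsp : ¬ spc kk)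
    {kq m TT : ℤ} {nh ks : ℕ} (hL : Lay g kq nh m TT ks) {Wp K E : ℕ}
    (h1 : 2 * (Nat.card T : ℤ) ≤ (g.i0 + g.j0) * (dc kk + Wp)) (h2 : g.i0 - g.j0 < 2 * K)
    (h3 : (E : ℤ) < g.i0 + g.j0) (h4 : (g.i0 + g.j0) * K ≤ Nat.card T) {n o gap U : ℕ} (hU : 1 ≤ U)
    (t2 : 2 * (3 * n + 1) * (Wp + 8) < K)
    (t5 : 4 * (2 * (3 * n + 1)) * ((2 * K + 4 * nh + 6) * (2 * U)) ≤ E) (t6 : 4 * LP n o gap ≤ E) :
    1000 * (4 * n ^ 2 + 1) * (8 * o) * (4 ^ (40 * n ^ 2 + 1) * (30 + 5 * (gap + 2))) ≤ ((g.i0 + g.j0) / 4).toNat ∧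
    (g.i0 + g.j0) * (dc kk + 8) ≤ 2 * (Nat.card T : ℤ) ∧
    (g.i0 + g.j0) * (g.i0 - g.j0) ≤ 16 * (Nat.card T : ℤ) ∧
    ∃ Bad : Finset T, (∀ τ, τ ∉ Bad → ∃ i j : ℤ, i • al + j • be = τ ∧ H49.InZone g kk 2 (U : ℤ) i j) ∧
      2 * (3 * n + 1) * Bad.card < Nat.card T := by
  have hl := g.l0_pos
  have hX := g.X0
  obtain ⟨ρ, ty, hr⟩ := hL.reg
  refine ⟨?_, ?_, ?_, ?_⟩
  · have e1 : ((4 * LP n o gap : ℕ) : ℤ) ≤ (E : ℕ) := by exact_mod_cast t6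
    push_cast at e1
    have e2 : ((LP n o gap : ℕ) : ℤ) ≤ (g.i0 + g.j0) / 4 := by omega
    show LP n o gap ≤ _
    omega
  · have h0 : ∀ j ∈ Finset.range (R - 1), 0 ≤ dc j := by
      intro j hj
      rw [Finset.mem_range] at hj
      rcases g.kind j (by omega) with h | h
      · linarith [h.2.2.1]
      · linarith [h.2.2.2.2.1]
    have e1 : dc kk ≤ ∑ j ∈ Finset.range (R - 1), dc j :=
      Finset.single_le_sum h0 (Finset.mem_range.2 (by omega))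
    have e2 := g.wide
    have e3 : (0 : ℤ) ≤ R := Int.natCast_nonneg R
    exact (mul_le_mul_of_nonneg_left (by linarith) hl.le).trans e2
  · have e1 : (g.i0 + g.j0) * (g.i0 - g.j0) ≤ (g.i0 + g.j0) * (2 * K) := mul_le_mul_of_nonneg_left h2.le hl.le
    have e2 : (g.i0 + g.j0) * (2 * K) = 2 * ((g.i0 + g.j0) * K) := by ring
    have e3 : (0 : ℤ) ≤ Nat.card T := Int.natCast_nonneg _
    linarith
  · refine H84.zone_few' g hkk hsp (μ := 2) (U := (U : ℤ)) (W := (Wp : ℤ)) (K := (K : ℤ)) (E := (E : ℤ))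
      (E1 := 2 * (K : ℤ) + 4 * nh + 6) (V := 2 * (3 * n + 1)) (by norm_num) (by exact_mod_cast hU)
      (Int.natCast_nonneg _) (by omega) h1 ?_ h4 ?_ ?_ h3
    · have e1 : ((2 * (3 * n + 1) * (Wp + 8) : ℕ) : ℤ) < (K : ℕ) := by exact_mod_cast t2
      push_cast at e1 ⊢
      linarith
    · rw [hr.hEt]
      linarith [hr.ρ3]
    · have e1 : ((4 * (2 * (3 * n + 1)) * ((2 * K + 4 * nh + 6) * (2 * U)) : ℕ) : ℤ) ≤ (E : ℕ) := by exact_mod_cast t5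
      push_cast at e1 ⊢
      refine le_trans ?_ e1
      refine mul_le_mul_of_nonneg_left (mul_le_mul_of_nonneg_left (by linarith) (by positivity)) (by positivity)

/-- NUM together with the general layout of LEVEL 3 and the numbers of `exists_plan` for the wide strip `r0`. -/
theorem num_plan (e₁ : ℕ) : ∃ e : ℕ, ∀ c₁ c₂ : ℕ, ∃ c₀ : ℕ, ∀ (G : Type) [Group G] [Finite G] (N C : Subgroup G)
    (eps : G →* ℤˣ) (k P : ℕ) (A : Set G) (a t b : G), SQD.Inv N C eps k P A c₁ a t b →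
    ¬ SQD.RelN N C a t b ((k + (Nat.card G).primeFactorsList.length) ^ e) →
    2 ^ ((k + (Nat.card G).primeFactorsList.length) ^ c₀) ≤ P →
      IvT eps (closure ({a, t, b} : Set G)) ![a, t, b] ∧ 4 ≤ k ∧
      Nat.card C * k ≤ 2 ^ ((k + (Nat.card G).primeFactorsList.length) ^ (c₁ + 1)) ∧ 0 < Nat.card C * k ∧
      Nat.card (KH eps (closure ({a, t, b} : Set G))) ∣ Nat.card C * k ∧
      P ∣ Nat.card (Th eps (closure ({a, t, b} : Set G))) ∧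
      (∀ o : ℕ, k * Nat.card C ∣ o → ∀ B : G, B ^ o ∈ N ∧ (∀ g, eps g = 1 → B ^ o * g = g * B ^ o) ∧
        ∀ g, eps g = -1 → g * B ^ o * g⁻¹ = (B ^ o)⁻¹) ∧
      ∀ (m0 r0 : ℕ) (d : ℕ → ℤ) (nh kq m TT Gr K E n o gap U : ℕ), 2 ≤ m0 → r0 < m0 →
        (∀ k, 2 ≤ d k ∧ d k ≤ 6 ∧ d k % 2 = 0) → Nums (kq : ℤ) nh m TT Gr → 1 ≤ U →
        2 * (3 * n + 1) * (Wg m0 nh kq + 8) < K → (2 * K + 4 * nh + 6) * (Gr + 8 * kq + 40) ≤ E →
        4 * (2 * (3 * n + 1)) * ((2 * K + 4 * nh + 6) * (2 * U)) ≤ E → 4 * LP n o gap ≤ E →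
        K ≤ (k + (Nat.card G).primeFactorsList.length) ^ e₁ →
        E ≤ 2 ^ ((k + (Nat.card G).primeFactorsList.length) ^ c₂) → ∀ {t₁ t₂ : Fin 3}, t₁ ≠ t₂ →
        ∀ (good : Fin 3 → Fin 3 → Fin 3 → ℤ → Prop) (_ : ∀ s a b, (s = t₁ ∨ s = t₂) → s ≠ a → s ≠ b → a ≠ b →
          ∀ Y : ℤ, 14 ≤ Y → ∃ D, good s a b D ∧ D % 2 = 0 ∧ D ≤ Y ∧ Y ≤ D + 7),
        ∃ s, (s = t₁ ∨ s = t₂) ∧ ∃ a' b' : Fin 3, s ≠ a' ∧ s ≠ b' ∧ a' ≠ b' ∧
          ∃ D : ℤ, good s a' b' D ∧ D % 2 = 0 ∧ 6 ≤ D ∧ 2 * K ≤ D + Wg m0 nh kq ∧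
          ∃ R : ℕ, m0 + 5 ≤ R ∧ R ≤ m0 + 33 ∧
          ∃ g : Geo (Ltc (cth eps (closure ({a, t, b} : Set G)) (![a, t, b] a' * ![a, t, b] s))
              (cth eps (closure ({a, t, b} : Set G)) (![a, t, b] b' * ![a, t, b] s)))
            (Nat.card (Th eps (closure ({a, t, b} : Set G)))) R (dcL m0 (dW d r0 D)) (spL m0) Gr,
          Lay g kq nh m TT m0 ∧ g.i0 - g.j0 < 2 * K ∧ (E : ℤ) < g.i0 + g.j0 ∧
          (g.i0 + g.j0) * K ≤ Nat.card (Th eps (closure ({a, t, b} : Set G))) ∧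
          1000 * (4 * n ^ 2 + 1) * (8 * o) * (4 ^ (40 * n ^ 2 + 1) * (30 + 5 * (gap + 2))) ≤
            ((g.i0 + g.j0) / 4).toNat ∧
          (g.i0 + g.j0) * (dcL m0 (dW d r0 D) r0 + 8) ≤
            2 * (Nat.card (Th eps (closure ({a, t, b} : Set G))) : ℤ) ∧
          (g.i0 + g.j0) * (g.i0 - g.j0) ≤ 16 * (Nat.card (Th eps (closure ({a, t, b} : Set G))) : ℤ) ∧
          ∃ Bad : Finset (Th eps (closure ({a, t, b} : Set G))),
            (∀ τ, τ ∉ Bad → ∃ i j : ℤ, i • cth eps (closure ({a, t, b} : Set G)) (![a, t, b] a' * ![a, t, b] s) +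
              j • cth eps (closure ({a, t, b} : Set G)) (![a, t, b] b' * ![a, t, b] s) = τ ∧
              H49.InZone g r0 2 (U : ℤ) i j) ∧
            2 * (3 * n + 1) * Bad.card < Nat.card (Th eps (closure ({a, t, b} : Set G))) := by
  obtain ⟨e, he⟩ := num_layG e₁
  refine ⟨e, fun c₁ c₂ => ?_⟩
  obtain ⟨c₀, hc⟩ := he c₁ c₂
  refine ⟨c₀, ?_⟩
  intro G _ _ N C eps k P A a t b h hR hP
  obtain ⟨h1, h2, h3, h4, h5, h6, h7, h8⟩ := hc G N C eps k P A a t b h hR hP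
  refine ⟨h1, h2, h3, h4, h5, h6, h7, ?_⟩
  intro m0 r0 d nh kq m TT Gr K E n o gap U hm hr0 hd hn hU t2 q1 q2 q3 q4 q5 t₁ t₂ htt good hgood
  have : Finite (Th eps (closure ({a, t, b} : Set G))) :=
    inferInstanceAs (Finite (Additive (Abelianization ((closure ({a, t, b} : Set G)).subgroupOf eps.ker))))
  have hW8 : Wg m0 nh kq + 8 ≤ 2 * (3 * n + 1) * (Wg m0 nh kq + 8) := Nat.le_mul_of_pos_left _ (by omega)
  obtain ⟨s, hs, a', b', f1, f2, f3, D, d0, d1, d2, d3, R, r1, r2, hex⟩ :=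
    h8 m0 r0 d nh kq m TT Gr K E hm hr0 hd hn (by omega) q1 q4 q5 htt good hgood
  have key : ∀ (al be : Th eps (closure ({a, t, b} : Set G)))
      (g : Geo (Ltc al be) (Nat.card (Th eps (closure ({a, t, b} : Set G)))) R (dcL m0 (dW d r0 D)) (spL m0) Gr),
      Lay g kq nh m TT m0 ∧
      2 * (Nat.card (Th eps (closure ({a, t, b} : Set G))) : ℤ) ≤ (g.i0 + g.j0) * (D + Wg m0 nh kq) ∧
      g.i0 - g.j0 < 2 * K ∧ (E : ℤ) < g.i0 + g.j0 ∧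
      (g.i0 + g.j0) * K ≤ Nat.card (Th eps (closure ({a, t, b} : Set G))) →
      Lay g kq nh m TT m0 ∧ g.i0 - g.j0 < 2 * K ∧ (E : ℤ) < g.i0 + g.j0 ∧
      (g.i0 + g.j0) * K ≤ Nat.card (Th eps (closure ({a, t, b} : Set G))) ∧
      1000 * (4 * n ^ 2 + 1) * (8 * o) * (4 ^ (40 * n ^ 2 + 1) * (30 + 5 * (gap + 2))) ≤
        ((g.i0 + g.j0) / 4).toNat ∧
      (g.i0 + g.j0) * (dcL m0 (dW d r0 D) r0 + 8) ≤
        2 * (Nat.card (Th eps (closure ({a, t, b} : Set G))) : ℤ) ∧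
      (g.i0 + g.j0) * (g.i0 - g.j0) ≤ 16 * (Nat.card (Th eps (closure ({a, t, b} : Set G))) : ℤ) ∧
      ∃ Bad : Finset (Th eps (closure ({a, t, b} : Set G))),
        (∀ τ, τ ∉ Bad → ∃ i j : ℤ, i • al + j • be = τ ∧ H49.InZone g r0 2 (U : ℤ) i j) ∧
        2 * (3 * n + 1) * Bad.card < Nat.card (Th eps (closure ({a, t, b} : Set G))) := by
    rintro al be g ⟨l1, l2, l3, l4, l5⟩
    have hsp : ¬ spL m0 r0 := fun h' => by have := h'.1; omega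
    have hdc : dcL m0 (dW d r0 D) r0 = D := by rw [dcL_al hsp, dW_self]
    obtain ⟨p1, p2, p3, p4⟩ := plan_nums g (kk := r0) (by omega) hsp l1 (Wp := Wg m0 nh kq) (K := K) (E := E)
      (by rw [hdc]; exact l2) l3 l4 l5 (n := n) (o := o) (gap := gap) hU t2 q2 q3
    exact ⟨l1, l3, l4, l5, p1, p2, p3, p4⟩
  refine ⟨s, hs, a', b', f1, f2, f3, D, d0, d1, d2, d3, R, r1, r2, ?_⟩
  rw [h1.hh_sub, h1.hh_sub] at hex
  obtain ⟨g', hex⟩ := hex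
  exact ⟨g', key _ _ g' hex⟩

/-- The numbers of `exists_plan` from the record `NumT` (helper84), for one geometry. -/
theorem plan_numT {T : Type*} [AddCommGroup T] [Finite T] {al be : T} {R : ℕ} {dc : ℕ → ℤ} {spc : ℕ → Prop}
    {m0 n kq KV cS mm e o pd nh m TT Gr K E gap U : ℕ} (D : H84.NumT m0 n kq KV cS mm e o pd nh m TT Gr K E gap U)
    (g : Geo (Ltc al be) (Nat.card T) R dc spc (Gr : ℤ)) {kk : ℕ} (hkk : kk + 1 < R) (hsp : ¬ spc kk) {ks : ℕ}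
    (hL : Lay g kq nh m TT ks) (h1 : 2 * (Nat.card T : ℤ) ≤ (g.i0 + g.j0) * (dc kk + H84.Wg m0 nh kq))
    (h2 : g.i0 - g.j0 < 2 * K) (h3 : (E : ℤ) < g.i0 + g.j0) (h4 : (g.i0 + g.j0) * K ≤ Nat.card T) :
    ((8 * o * (2 * (4 ^ (40 * n ^ 2) * (30 + 5 * (gap + 2))) + 3) + gap + pd + 3 : ℕ) : ℤ) ≤ (U : ℤ) ∧
    ((8 * o * (2 * (4 ^ (40 * n ^ 2) * (30 + 5 * (gap + 2))) + 3) + gap + 3 : ℕ) : ℤ) ≤ (Gr : ℤ) ∧
    1000 * (4 * n ^ 2 + 1) * (8 * o) * (4 ^ (40 * n ^ 2 + 1) * (30 + 5 * (gap + 2))) ≤ ((g.i0 + g.j0) / 4).toNat ∧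
    (g.i0 + g.j0) * (dc kk + 8) ≤ 2 * (Nat.card T : ℤ) ∧
    (g.i0 + g.j0) * (g.i0 - g.j0) ≤ 16 * (Nat.card T : ℤ) ∧
    ∃ Bad : Finset T, (∀ τ, τ ∉ Bad → ∃ i j : ℤ, i • al + j • be = τ ∧ H49.InZone g kk 2 (U : ℤ) i j) ∧
      2 * (3 * n + 1) * Bad.card < Nat.card T := by
  refine ⟨by exact_mod_cast D.hU, by exact_mod_cast D.hG, ?_⟩
  have hU := D.hU
  exact plan_nums g hkk hsp hL h1 h2 h3 h4 (by omega) D.hV D.hE2 (by unfold LP; have := D.hE3; omega)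

end Pool.Agent.Lib.MP_688fd0_co.SQ5.H58
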