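import Pool.Agent.Lib.MP_688fd0_co.SQ5.H58.NumPlan
import Pool.Agent.Lib.MP_688fd0_co.SQ5.H12.Place

/-!
Type C2, threads over far bases (helper58): the plan (helper12) with the numbers of the record `NumT` (helper84).
-/

set_option autoImplicit false

namespace Pool.Agent.Lib.MP_688fd0_co.SQ5.H58

open Pool.Agent.Lib.MP_688fd0_co.OSF Pool.Agent.Lib.MP_688fd0_co.SQ5.H66 Pool.Agent.Lib.MP_688fd0_co.SQ5.H76
open Pool.Agent.Lib.MP_688fd0_co.SQ3 Pool.Agent.Lib.MP_688fd0_co.SQ5.H24 Pool.Agent.Lib.MP_688fd0_co.SQ5.H12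
open Subgroup

universe u v

/-- THE PLAN, with all numbers. -/
theorem exists_planT {Q : Type u} [Group Q] {eps : Q →* ℤˣ} {G0 : Subgroup Q} {B : Lb.{u, v} Q} {l : L3 → B.L}
    [Finite (Th eps G0)] {R : ℕ} {dc : ℕ → ℤ} {spc : ℕ → Prop} {al be : Th eps G0}
    {m0 n kq KV cS mm e o pd nh m TT Gr K E gap U : ℕ} (D : H84.NumT m0 n kq KV cS mm e o pd nh m TT Gr K E gap U)
    {g : Geo (Ltc al be) (Nat.card (Th eps G0)) R dc spc (Gr : ℤ)} {ks : ℕ} (hL : Lay g kq nh m TT ks)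
    (hneg : ∀ i, eps (B.q (l i)) = -1) (hmem : ∀ i, B.q (l i) ∈ G0) (hi : ∀ i, B.inv (l i) = l i)
    (hal : al = cth eps G0 (B.q (l .a) * B.q (l .t))) (hbe : be = cth eps G0 (B.q (l .b) * B.q (l .t)))
    {mg : ℕ} {hw : ℤ → ℕ} (H : Geo.Mn g mg hw) {kk : ℕ} (hkk : kk < mg) (hsp : ¬ spc kk)
    (h1 : 2 * (Nat.card (Th eps G0) : ℤ) ≤ (g.i0 + g.j0) * (dc kk + H84.Wg m0 nh kq))
    (h2 : g.i0 - g.j0 < 2 * K) (h3 : (E : ℤ) < g.i0 + g.j0) (h4 : (g.i0 + g.j0) * K ≤ Nat.card (Th eps G0))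
    {N' N0' : Subgroup eps.ker} (W : Per (G0.subgroupOf eps.ker) N' N0') (hWn : W.n = n)
    {A : Set Q} (hst : ∀ t, ∃ gl ∈ A, gl ∉ G0 ∧ (((W.s t : eps.ker) : Q) = B.q (l .a) * gl ∨
      ((W.s t : eps.ker) : Q) = B.q (l .b) * gl ∨
      ((W.s t : eps.ker) : Q) = B.q (l .a) * B.q (l .t) * B.q (l .a) * gl))
    (ho : 1 ≤ o)
    (hcen : ∀ (p : ℤ) (y : Q), eps y = 1 → Aw (qq B l) p (8 * o) * y = y * Aw (qq B l) p (8 * o)) :
    ∃ r : eps.ker → eps.ker, Sct eps G0 r ∧ ∀ c : Cov B l (Ltc al be),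
      (∀ (y : eps.ker) (i j : ℤ), cth eps G0 ((r y : Q)⁻¹ * y) = i • al + j • be → c.Over (y : Q) (true, i, j)) →
      Nonempty (Plan c hi H G0 A kk (8 * o) gap pd (W.q * W.n)) := by
  subst hWn
  have hlt := H.lt
  obtain ⟨p1, p2, p3, p4, p5, Bad, p6, p7⟩ := plan_numT D g (kk := kk) (by omega) hsp hL h1 h2 h3 h4
  exact exists_plan hneg hmem hi hal hbe H hkk W hst ho hcen p1 p2 p3 p4 p5 Bad p6 p7

/-- THE PLAN, with all numbers; the period of the walk may be shorter than `n`. -/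
theorem exists_planLe {Q : Type u} [Group Q] {eps : Q →* ℤˣ} {G0 : Subgroup Q} {B : Lb.{u, v} Q} {l : L3 → B.L}
    [Finite (Th eps G0)] {R : ℕ} {dc : ℕ → ℤ} {spc : ℕ → Prop} {al be : Th eps G0}
    {m0 n kq KV cS mm e o pd nh m TT Gr K E gap U : ℕ} (D : H84.NumT m0 n kq KV cS mm e o pd nh m TT Gr K E gap U)
    {g : Geo (Ltc al be) (Nat.card (Th eps G0)) R dc spc (Gr : ℤ)} {ks : ℕ} (hL : Lay g kq nh m TT ks)
    (hneg : ∀ i, eps (B.q (l i)) = -1) (hmem : ∀ i, B.q (l i) ∈ G0) (hi : ∀ i, B.inv (l i) = l i)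
    (hal : al = cth eps G0 (B.q (l .a) * B.q (l .t))) (hbe : be = cth eps G0 (B.q (l .b) * B.q (l .t)))
    {mg : ℕ} {hw : ℤ → ℕ} (H : Geo.Mn g mg hw) {kk : ℕ} (hkk : kk < mg) (hsp : ¬ spc kk)
    (h1 : 2 * (Nat.card (Th eps G0) : ℤ) ≤ (g.i0 + g.j0) * (dc kk + H84.Wg m0 nh kq))
    (h2 : g.i0 - g.j0 < 2 * K) (h3 : (E : ℤ) < g.i0 + g.j0) (h4 : (g.i0 + g.j0) * K ≤ Nat.card (Th eps G0))
    {N' N0' : Subgroup eps.ker} (W : Per (G0.subgroupOf eps.ker) N' N0') (hWn : W.n ≤ n)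
    {A : Set Q} (hst : ∀ t, ∃ gl ∈ A, gl ∉ G0 ∧ (((W.s t : eps.ker) : Q) = B.q (l .a) * gl ∨
      ((W.s t : eps.ker) : Q) = B.q (l .b) * gl ∨
      ((W.s t : eps.ker) : Q) = B.q (l .a) * B.q (l .t) * B.q (l .a) * gl))
    (ho : 1 ≤ o)
    (hcen : ∀ (p : ℤ) (y : Q), eps y = 1 → Aw (qq B l) p (8 * o) * y = y * Aw (qq B l) p (8 * o)) :
    ∃ r : eps.ker → eps.ker, Sct eps G0 r ∧ ∀ c : Cov B l (Ltc al be),
      (∀ (y : eps.ker) (i j : ℤ), cth eps G0 ((r y : Q)⁻¹ * y) = i • al + j • be → c.Over (y : Q) (true, i, j)) →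
      Nonempty (Plan c hi H G0 A kk (8 * o) gap pd (W.q * W.n)) := by
  have hlt := H.lt
  obtain ⟨p1, p2, p3, p4, p5, Bad, p6, p7⟩ := plan_numT D g (kk := kk) (by omega) hsp hL h1 h2 h3 h4
  have h40 : 40 * W.n ^ 2 ≤ 40 * n ^ 2 := Nat.mul_le_mul_left _ (Nat.pow_le_pow_left hWn 2)
  have hp4 : 4 ^ (40 * W.n ^ 2) ≤ 4 ^ (40 * n ^ 2) := Nat.pow_le_pow_right (by norm_num) h40
  have hp5 : 4 ^ (40 * W.n ^ 2 + 1) ≤ 4 ^ (40 * n ^ 2 + 1) := Nat.pow_le_pow_right (by norm_num) (by omega)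
  have hq : 4 * W.n ^ 2 + 1 ≤ 4 * n ^ 2 + 1 := by
    have := Nat.pow_le_pow_left hWn 2
    omega
  have e1 : 8 * o * (2 * (4 ^ (40 * W.n ^ 2) * (30 + 5 * (gap + 2))) + 3)
      ≤ 8 * o * (2 * (4 ^ (40 * n ^ 2) * (30 + 5 * (gap + 2))) + 3) :=
    Nat.mul_le_mul_left _ (Nat.add_le_add_right (Nat.mul_le_mul_left _ (Nat.mul_le_mul_right _ hp4)) _)
  have e2 : 1000 * (4 * W.n ^ 2 + 1) * (8 * o) * (4 ^ (40 * W.n ^ 2 + 1) * (30 + 5 * (gap + 2)))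
      ≤ 1000 * (4 * n ^ 2 + 1) * (8 * o) * (4 ^ (40 * n ^ 2 + 1) * (30 + 5 * (gap + 2))) :=
    Nat.mul_le_mul (Nat.mul_le_mul_right _ (Nat.mul_le_mul_left _ hq)) (Nat.mul_le_mul_right _ hp5)
  have e3 : 2 * (3 * W.n + 1) * Bad.card ≤ 2 * (3 * n + 1) * Bad.card :=
    Nat.mul_le_mul_right _ (Nat.mul_le_mul_left _ (by omega))
  exact exists_plan hneg hmem hi hal hbe H hkk W hst ho hcen
    (le_trans (by exact_mod_cast Nat.add_le_add_right (Nat.add_le_add_right (Nat.add_le_add_right e1 _) _) _) p1)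
    (le_trans (by exact_mod_cast Nat.add_le_add_right (Nat.add_le_add_right e1 _) _) p2)
    (e2.trans p3) p4 p5 Bad p6 (e3.trans_lt p7)

end Pool.Agent.Lib.MP_688fd0_co.SQ5.H58
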