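import Pool.Agent.Lib.MP_688fd0_co.SQ5.H23.C2All
import Pool.Agent.Lib.MP_688fd0_co.SQ5.H58.ThrA
import Pool.Agent.Lib.MP_688fd0_co.SQ5.H58.Num

/-!
Type C2, threads over far bases (helper58), row NUM, part B: the vertical unit and the orders.
-/

set_option autoImplicit false

namespace Pool.Agent.Lib.MP_688fd0_co.SQ5.H58

open Pool.Agent.Lib.MP_688fd0_co.OSF Pool.Agent.Lib.MP_688fd0_co.SQ5.H66 Pool.Agent.Lib.MP_688fd0_co.SQ5.H76
open Pool.Agent.Lib.MP_688fd0_co.SQ3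
open Subgroup

section grp

variable {G : Type} [Group G] [Finite G] {N C : Subgroup G} {eps : G →* ℤˣ} {k P : ℕ}

/-- A group generated by involutions acts on subgroups of prime order of `N` by `±1`. -/
theorem quad (hG : GN N C eps k P) {A : Set G} (hinv : ∀ s ∈ A, s * s = 1) (hgen : closure A = ⊤) {p : ℕ}
    (hp : p.Prime) {y : G} (hy : y ∈ N) (ho : orderOf y = p) (g : G) : g * y * g⁻¹ = y ∨ g * y * g⁻¹ = y⁻¹ := by
  have hZ : (zpowers y).Normal := SQ2.H41.zpowers_normal N hG.Nn hG.Nc hy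
  let S : Subgroup G :=
    { carrier := {g | g * y * g⁻¹ = y ∨ g * y * g⁻¹ = y⁻¹}
      one_mem' := Or.inl (by rw [one_mul, inv_one, mul_one])
      mul_mem' := fun {g g'} h h' => by
        have e : g * g' * y * (g * g')⁻¹ = g * (g' * y * g'⁻¹) * g⁻¹ := by group
        show g * g' * y * (g * g')⁻¹ = y ∨ g * g' * y * (g * g')⁻¹ = y⁻¹
        rw [e]
        have e' : g * y⁻¹ * g⁻¹ = (g * y * g⁻¹)⁻¹ := by group
        rcases h' with h' | h' <;> rcases h with h | h <;> rw [h']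
        · exact Or.inl h
        · exact Or.inr h
        · rw [e', h]; exact Or.inr rfl
        · rw [e', h, inv_inv]; exact Or.inl rfl
      inv_mem' := fun {g} h => by
        show g⁻¹ * y * g⁻¹⁻¹ = y ∨ g⁻¹ * y * g⁻¹⁻¹ = y⁻¹
        rw [inv_inv]
        rcases h with h | h
        · left
          rw [mul_inv_eq_iff_eq_mul] at h
          rw [mul_assoc, ← h, inv_mul_cancel_left]
        · right
          rw [mul_inv_eq_iff_eq_mul] at h
          have h2 : y * g = g * y⁻¹ := by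
            rw [← inv_mul_eq_iff_eq_mul, ← mul_assoc, inv_inv] at h
            rw [eq_mul_inv_iff_mul_eq, h]
          rw [mul_assoc, h2, inv_mul_cancel_left] }
  have hA : ∀ s ∈ A, s ∈ S := by
    intro s hs
    obtain ⟨m, hm⟩ := mem_zpowers_iff.1 (hZ.conj_mem y (mem_zpowers y) s)
    have hs2 : s⁻¹ = s := inv_eq_of_mul_eq_one_right (hinv s hs)
    have h1 : s * (s * y * s⁻¹) * s⁻¹ = y := by
      rw [hs2]
      calc s * (s * y * s) * s = (s * s) * y * (s * s) := by group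
        _ = y := by rw [hinv s hs, one_mul, mul_one]
    rw [← hm, conj_zpow.symm, ← hm, ← zpow_mul] at h1
    have h2 : y ^ (m * m - 1) = 1 := by rw [zpow_sub, h1, zpow_one, mul_inv_cancel]
    have h3 : (p : ℤ) ∣ (m - 1) * (m + 1) := by
      have := orderOf_dvd_iff_zpow_eq_one.2 h2
      rw [ho] at this
      convert this using 1
      ring
    show s * y * s⁻¹ = y ∨ s * y * s⁻¹ = y⁻¹
    rcases Int.Prime.dvd_mul' hp h3 with h4 | h4
    · left
      rw [← ho] at h4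
      have := orderOf_dvd_iff_zpow_eq_one.1 h4
      rw [zpow_sub, zpow_one, mul_inv_eq_one] at this
      rw [← hm, this]
    · right
      rw [← ho] at h4
      have := orderOf_dvd_iff_zpow_eq_one.1 h4
      rw [zpow_add, zpow_one] at this
      rw [← hm]
      exact eq_inv_of_mul_eq_one_left this
  have h1 : g ∈ S := by
    have : S = ⊤ := by
      rw [← top_le_iff, ← hgen, closure_le]
      exact hA
    rw [this]
    trivial
  exact h1

/-- Powers with an exponent divisible by `k |C|`: they lie in `N` and every element acts on them by `eps`. -/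
theorem pow_ord (hG : GN N C eps k P) {o : ℕ} (ho : k * Nat.card C ∣ o) (B : G) :
    B ^ o ∈ N ∧ ∀ g, g * B ^ o * g⁻¹ = (B ^ o) ^ ((eps g : ℤˣ) : ℤ) := by
  have hNn := hG.Nn
  obtain ⟨c, rfl⟩ := ho
  have h1 : B ^ k ∈ N := by
    rw [← hG.idx]
    exact N.pow_index_mem B
  obtain ⟨y, hy⟩ : ∃ y, y = (B ^ k) ^ c := ⟨_, rfl⟩
  have hyN : y ∈ N := by rw [hy]; exact N.pow_mem h1 c
  have h2 : B ^ (k * Nat.card C * c) = y ^ Nat.card C := by
    rw [hy, ← pow_mul, ← pow_mul]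
    congr 1
    ring
  rw [h2]
  refine ⟨N.pow_mem hyN _, fun g => ?_⟩
  have hyz : y ^ ((eps g : ℤˣ) : ℤ) ∈ N := N.zpow_mem hyN _
  obtain ⟨d, hd⟩ : ∃ d, d = g * y * g⁻¹ * (y ^ ((eps g : ℤˣ) : ℤ))⁻¹ := ⟨_, rfl⟩
  have hdC : d ∈ C := hd ▸ hG.act y hyN g
  have h3 : g * y * g⁻¹ = d * y ^ ((eps g : ℤˣ) : ℤ) := by rw [hd, inv_mul_cancel_right]
  have hcomm : Commute d (y ^ ((eps g : ℤˣ) : ℤ)) := SQ2.H41.comm_of_cyclic N hG.Nc _ (hG.CN hdC) _ hyz
  have h4 : d ^ Nat.card C = 1 := by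
    have : (⟨d, hdC⟩ : C) ^ Nat.card C = 1 := pow_card_eq_one'
    exact congrArg Subtype.val this
  have h5 : g * y ^ Nat.card C * g⁻¹ = (g * y * g⁻¹) ^ Nat.card C := (conj_pow).symm
  rw [h5, h3, hcomm.mul_pow, h4, one_mul, ← zpow_natCast, ← zpow_natCast, ← zpow_mul, ← zpow_mul, mul_comm]

/-- The vertical unit is central in `ker eps`. -/
theorem pow_ord_comm (hG : GN N C eps k P) {o : ℕ} (ho : k * Nat.card C ∣ o) (B : G) {g : G} (hg : eps g = 1) :
    B ^ o * g = g * B ^ o := by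
  have h1 := (pow_ord hG ho B).2 g
  rw [hg, show (((1 : ℤˣ) : ℤˣ) : ℤ) = 1 from rfl, zpow_one, mul_inv_eq_iff_eq_mul] at h1
  exact h1.symm

/-- The reflections invert the vertical unit. -/
theorem pow_ord_inv (hG : GN N C eps k P) {o : ℕ} (ho : k * Nat.card C ∣ o) (B : G) {g : G} (hg : eps g = -1) :
    g * B ^ o * g⁻¹ = (B ^ o)⁻¹ := by
  have h1 := (pow_ord hG ho B).2 g
  rw [hg, show (((-1 : ℤˣ) : ℤˣ) : ℤ) = -1 from rfl, zpow_neg_one] at h1
  exact h1

end grp

section inv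

variable {G : Type} [Group G] [Finite G] {N C : Subgroup G} {eps : G →* ℤˣ} {k P : ℕ} {A : Set G} {a t b : G} {c₁ : ℕ}

/-- The letters of the base. -/
theorem ivT (h : SQD.Inv N C eps k P A c₁ a t b) : IvT eps (closure ({a, t, b} : Set G)) ![a, t, b] where
  neg i := by fin_cases i <;> [exact h.neg _ h.aA; exact h.neg _ h.tA; exact h.neg _ h.bA]
  inv i := by fin_cases i <;> [exact h.inv _ h.aA; exact h.inv _ h.tA; exact h.inv _ h.bA]
  mem i := by fin_cases i <;> exact subset_closure (by simp)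
  gen := by
    refine closure_mono ?_
    rintro y (rfl | rfl | rfl)
    · exact ⟨0, rfl⟩
    · exact ⟨1, rfl⟩
    · exact ⟨2, rfl⟩

theorem four_leT (h : SQD.Inv N C eps k P A c₁ a t b) : 4 ≤ k := by
  have hle : N ≤ eps.ker := fun n hn => h.gn.eN n hn
  have h1 := Subgroup.relIndex_mul_index hle
  rw [h.gn.idx] at h1
  have h2 : eps.ker.index = 2 := by
    rw [Subgroup.index_ker]
    have h3 : eps.range = ⊤ := by
      rw [MonoidHom.range_eq_top]
      intro y
      rcases Int.units_eq_one_or y with rfl | rfl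
      · exact ⟨1, map_one _⟩
      · exact ⟨a, h.neg _ h.aA⟩
    rw [h3]
    have : Nat.card (⊤ : Subgroup ℤˣ) = Nat.card ℤˣ := Subgroup.card_top
    rw [this, Nat.card_eq_fintype_card]
    rfl
  have h3 : N.relIndex eps.ker ≠ 0 := by
    have : N.relIndex eps.ker ∣ N.index := by
      rw [h.gn.idx, ← h1]
      exact Dvd.intro _ rfl
    intro h0
    rw [h0, zero_dvd_iff] at this
    exact N.index_ne_zero_of_finite this
  have h4 : N.relIndex eps.ker ≠ 1 := by
    intro h0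
    rw [Subgroup.relIndex_eq_one] at h0
    apply h.nab
    refine h0 ?_
    have e1 : eps (a * t) = 1 := (ivT h).even 0 1
    have e2 : eps (b * t) = 1 := (ivT h).even 2 1
    show eps _ = 1
    rw [map_mul, map_mul, map_mul, map_inv, map_inv, e1, e2]
    decide
  rw [h2] at h1
  omega

/-- The order of `C`. -/
theorem card_CT (h : SQD.Inv N C eps k P A c₁ a t b) :
    Nat.card C * k ≤ 2 ^ ((k + (Nat.card G).primeFactorsList.length) ^ (c₁ + 1)) := by
  set Ω := (Nat.card G).primeFactorsList.length with hΩ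
  have hk := four_leT h
  have hC0 : Nat.card C ≠ 0 := Nat.card_pos.ne'
  have hsm : ∀ p ∈ (Nat.card C).primeFactorsList, p ≤ 2 ^ ((k + Ω) ^ c₁) := fun p hp => by
    refine (h.small p (Nat.mem_primeFactors.2 ⟨Nat.prime_of_mem_primeFactorsList hp,
      Nat.dvd_of_mem_primeFactorsList hp, hC0⟩) fun y hy hyo g => ?_).le
    exact quad h.gn h.inv h.gen (Nat.prime_of_mem_primeFactorsList hp) (h.gn.CN hy) hyo g
  have h1 : Nat.card C ≤ (2 ^ ((k + Ω) ^ c₁)) ^ Ω := by
    have h2 : (Nat.card C).primeFactorsList.length ≤ Ω := length_le (Subgroup.card_subgroup_dvd_card C) Nat.card_pos.ne'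
    calc Nat.card C = (Nat.card C).primeFactorsList.prod := (Nat.prod_primeFactorsList hC0).symm
      _ ≤ (2 ^ ((k + Ω) ^ c₁)) ^ (Nat.card C).primeFactorsList.length := List.prod_le_pow_card _ _ hsm
      _ ≤ _ := Nat.pow_le_pow_right (Nat.pos_of_ne_zero (by positivity)) h2
  have h4 : k ≤ 2 ^ ((k + Ω) ^ c₁ * k) := by
    calc k ≤ 2 ^ k := Nat.lt_two_pow_self.le
      _ ≤ _ := Nat.pow_le_pow_right (by norm_num) (Nat.le_mul_of_pos_left _ (Nat.pow_pos (by omega)))
  calc Nat.card C * k ≤ (2 ^ ((k + Ω) ^ c₁)) ^ Ω * 2 ^ ((k + Ω) ^ c₁ * k) := Nat.mul_le_mul h1 h4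
    _ = 2 ^ ((k + Ω) ^ (c₁ + 1)) := by
      rw [← pow_mul, ← pow_add]
      congr 1
      ring

theorem card_KH_dvd (h : GN N C eps k P) (G0 : Subgroup G) : Nat.card (KH eps G0) ∣ Nat.card C * k :=
  (card_dvd_of_le KH_le_K0).trans (card_K0_dvd h)

theorem KH_inf_le (h : GN N C eps k P) (G0 : Subgroup G) : KH eps G0 ⊓ N ≤ C :=
  (inf_le_inf_right _ KH_le_K0).trans (K0_inf_le h)

theorem not_dvd_KH (h : GN N C eps k P) (G0 : Subgroup G) {p : ℕ} (hp : p ∈ (Nat.card N).primeFactors)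
    (hC : ¬ p ∣ Nat.card C) : ¬ p ∣ Nat.card (KH eps G0) := by
  intro hd
  have hpp := Nat.prime_of_mem_primeFactors hp
  rcases hpp.dvd_mul.1 (hd.trans (card_KH_dvd h G0)) with h1 | h1
  · exact hC h1
  · have h2 := Nat.dvd_gcd (Nat.dvd_of_mem_primeFactors hp) h1
    rw [h.cop] at h2
    exact hpp.one_lt.ne' (Nat.dvd_one.1 h2)

/-- `P` divides the order of the abelian quotient. -/
theorem dvd_Th (h : SQD.Inv N C eps k P A c₁ a t b) :
    P ∣ Nat.card (Th eps (closure ({a, t, b} : Set G))) := by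
  have H := ivT h
  have h1 : orderOf (a * t) ∣ Nat.card (closure ({a, t, b} : Set G) ⊓ eps.ker : Subgroup G) := by
    have := orderOf_dvd_natCard (⟨a * t, H.mem2 0 1, H.even 0 1⟩ : (closure ({a, t, b} : Set G) ⊓ eps.ker : Subgroup G))
    rw [← Subgroup.orderOf_coe] at this
    exact this
  have h2 := h.hat.trans h1
  rw [← card_Th] at h2
  rcases h.gn.prime.dvd_mul.1 h2 with h3 | h3
  · exact h3
  · exact absurd h3 (not_dvd_KH h.gn _ (Nat.mem_primeFactors.2 ⟨h.gn.prime, h.gn.dvd, Nat.card_pos.ne'⟩) h.gn.ndvd)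

/-- A relation of the classes is a relation of the heights. -/
theorem relT_of (h : SQD.Inv N C eps k P A c₁ a t b) {τ : ℕ} {m n : ℤ}
    (hr : m • cth eps (closure ({a, t, b} : Set G)) (a * t) + n • cth eps (closure ({a, t, b} : Set G)) (b * t) = 0)
    (h0 : m ≠ 0 ∨ n ≠ 0) (hm : |m| ≤ τ) (hn : |n| ≤ τ) : SQD.RelN N C a t b τ := by
  have H := ivT h
  refine ⟨m, n, h0, hm, hn, fun p hp hC hd => ?_⟩
  have e1 : eps (a * t) = 1 := H.even 0 1
  have e2 : eps (b * t) = 1 := H.even 2 1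
  have m1 : a * t ∈ closure ({a, t, b} : Set G) := H.mem2 0 1
  have m2 : b * t ∈ closure ({a, t, b} : Set G) := H.mem2 2 1
  have h6 : (a * t) ^ m * (b * t) ^ n ∈ KH eps (closure ({a, t, b} : Set G)) := by
    have z1 : eps ((a * t) ^ m) = 1 := by rw [map_zpow, e1, one_zpow]
    have z2 : eps ((b * t) ^ n) = 1 := by rw [map_zpow, e2, one_zpow]
    rw [mem_KH, map_mul, z1, z2, mul_one, cth_mul z1 (Subgroup.zpow_mem _ m1 _) z2 (Subgroup.zpow_mem _ m2 _), cth_zpow e1 m1,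
      cth_zpow e2 m2]
    exact ⟨rfl, Subgroup.mul_mem _ (Subgroup.zpow_mem _ m1 _) (Subgroup.zpow_mem _ m2 _), hr⟩
  have h7 : orderOf ((a * t) ^ m * (b * t) ^ n) ∣ Nat.card (KH eps (closure ({a, t, b} : Set G))) := by
    have := orderOf_dvd_natCard (⟨_, h6⟩ : KH eps (closure ({a, t, b} : Set G)))
    rwa [Subgroup.orderOf_mk] at this
  exact not_dvd_KH h.gn _ hp hC (hd.trans h7)

theorem relT (h : SQD.Inv N C eps k P A c₁ a t b) {τ : ℕ} {n : Fin 3 → ℤ}
    (hn : Rel (hhT eps (closure ({a, t, b} : Set G)) ![a, t, b]) n) (hn0 : n ≠ 0) (hτ : ∀ i, |n i| ≤ τ) :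
    SQD.RelN N C a t b τ := by
  have H := ivT h
  obtain ⟨h1, h2⟩ := hn
  have e1 := H.hh_sub 0 1
  have e2 := H.hh_sub 2 1
  refine relT_of h (m := n 0) (n := n 2) ?_ ?_ (hτ 0) (hτ 2)
  · have e3 : n 0 • cth eps (closure ({a, t, b} : Set G)) (a * t) + n 2 • cth eps (closure ({a, t, b} : Set G)) (b * t) =
        n 0 • (hhT eps (closure ({a, t, b} : Set G)) ![a, t, b] 0 - hhT eps (closure ({a, t, b} : Set G)) ![a, t, b] 1) +
        n 2 • (hhT eps (closure ({a, t, b} : Set G)) ![a, t, b] 2 - hhT eps (closure ({a, t, b} : Set G)) ![a, t, b] 1) := by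
      rw [e1, e2]
      rfl
    have e4 : n 1 = -(n 0 + n 2) := by omega
    rw [e3, ← h2, e4]
    module
  · by_contra hcon
    push Not at hcon
    apply hn0
    funext i
    fin_cases i
    · exact hcon.1
    · show n 1 = 0
      rw [hcon.1, hcon.2] at h1
      omega
    · exact hcon.2

end inv

/-- NUM for threads. -/
theorem numT (e' : ℕ) : ∃ e : ℕ, ∀ c₁ c₂ : ℕ, ∃ c₀ : ℕ, ∀ (G : Type) [Group G] [Finite G] (N C : Subgroup G)
    (eps : G →* ℤˣ) (k P : ℕ) (A : Set G) (a t b : G), SQD.Inv N C eps k P A c₁ a t b →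
    ¬ SQD.RelN N C a t b ((k + (Nat.card G).primeFactorsList.length) ^ e) →
    2 ^ ((k + (Nat.card G).primeFactorsList.length) ^ c₀) ≤ P →
      IvT eps (closure ({a, t, b} : Set G)) ![a, t, b] ∧ 4 ≤ k ∧
      (∀ K : ℕ, K ≤ (k + (Nat.card G).primeFactorsList.length) ^ e' → ∀ n : Fin 3 → ℤ,
        Rel (hhT eps (closure ({a, t, b} : Set G)) ![a, t, b]) n → (∀ i, |n i| < 4 * K) → n = 0) ∧
      (∀ E K : ℕ, E + 2 * K ≤ 2 ^ ((k + (Nat.card G).primeFactorsList.length) ^ c₂) →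
        (E + 2 * K) ^ 2 < Nat.card (Th eps (closure ({a, t, b} : Set G)))) ∧
      Nat.card C * k ≤ 2 ^ ((k + (Nat.card G).primeFactorsList.length) ^ (c₁ + 1)) ∧ 0 < Nat.card C * k ∧
      Nat.card (KH eps (closure ({a, t, b} : Set G))) ∣ Nat.card C * k ∧
      P ∣ Nat.card (Th eps (closure ({a, t, b} : Set G))) ∧
      (∀ o : ℕ, k * Nat.card C ∣ o → ∀ B : G, B ^ o ∈ N ∧ (∀ g, eps g = 1 → B ^ o * g = g * B ^ o) ∧
        ∀ g, eps g = -1 → g * B ^ o * g⁻¹ = (B ^ o)⁻¹) := by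
  refine ⟨e' + 1, fun c₁ c₂ => ⟨c₂ + 1, ?_⟩⟩
  intro G _ _ N C eps k P A a t b h hR hP
  set S := k + (Nat.card G).primeFactorsList.length with hS
  have hk := four_leT h
  have hS4 : 4 ≤ S := by omega
  have hT0 : 0 < Nat.card (Th eps (closure ({a, t, b} : Set G))) := by
    have : Finite (Th eps (closure ({a, t, b} : Set G))) :=
      inferInstanceAs (Finite (Additive (Abelianization ((closure ({a, t, b} : Set G)).subgroupOf eps.ker))))
    exact Nat.card_pos
  refine ⟨ivT h, hk, ?_, ?_, card_CT h, Nat.mul_pos Nat.card_pos (by omega), card_KH_dvd h.gn _, dvd_Th h,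
    fun o ho B => ⟨(pow_ord h.gn ho B).1, fun g hg => pow_ord_comm h.gn ho B hg, fun g hg => pow_ord_inv h.gn ho B hg⟩⟩
  · intro K hK n hn hlt
    by_contra hne
    refine hR (relT h hn hne fun i => ?_)
    have h1 := (hlt i).le
    have h2 : 4 * K ≤ S ^ (e' + 1) := by
      calc 4 * K ≤ 4 * S ^ e' := Nat.mul_le_mul_left _ hK
        _ ≤ S * S ^ e' := Nat.mul_le_mul_right _ hS4
        _ = S ^ (e' + 1) := (pow_succ' _ _).symm
    have h3 : ((4 * K : ℕ) : ℤ) ≤ ((S ^ (e' + 1) : ℕ) : ℤ) := by exact_mod_cast h2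
    push_cast at h3 ⊢
    linarith
  · intro E K hE
    have h1 : (E + 2 * K) ^ 2 ≤ (2 ^ (S ^ c₂)) ^ 2 := Nat.pow_le_pow_left hE 2
    have h2 : (2 ^ (S ^ c₂)) ^ 2 < 2 ^ (S ^ (c₂ + 1)) := by
      rw [← pow_mul]
      refine Nat.pow_lt_pow_right (by norm_num) ?_
      rw [pow_succ]
      exact Nat.mul_lt_mul_of_pos_left (by omega) (Nat.pow_pos (by omega))
    exact h1.trans_lt (h2.trans_le (hP.trans (Nat.le_of_dvd hT0 (dvd_Th h))))

end Pool.Agent.Lib.MP_688fd0_co.SQ5.H58
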